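import Mathlib

/-!
# Bounded zero sets of polynomials

If `k` polynomials in the variables `x_i`, `i ∈ ι`, have a common zero `z` with `z_i ≠ 0` for `i ∈ T`,
and the set of the common zeros `y` with `y_i ≠ 0` for `i ∈ T` is bounded, then `k ≥ |ι|`.
-/

set_option autoImplicit false

namespace H90.TF

open MvPolynomial

/-- a bounded function on an irreducible variety is constant -/
theorem const_of_bounded {B : Type} [CommRing B] [IsDomain B] [Algebra ℂ B] [Algebra.FiniteType ℂ B]
    (b : B) (R : ℝ) (hb : ∀ φ : B →ₐ[ℂ] ℂ, ‖φ b‖ ≤ R) : ∃ c : ℂ, b = algebraMap ℂ B c := by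
  by_contra hcon
  -- `b` is transcendental
  have htr : Transcendental ℂ b := by
    intro halg
    apply hcon
    have hfin : (minpoly ℂ b).degree = 1 := by
      have h1 : IsIntegral ℂ b := halg.isIntegral
      exact IsAlgClosed.degree_eq_one_of_irreducible ℂ (minpoly.irreducible h1)
    have h2 : b ∈ (algebraMap ℂ B).range := minpoly.mem_range_of_degree_eq_one ℂ b hfin
    obtain ⟨c, hc⟩ := h2
    exact ⟨c, hc.symm⟩
  -- `b - c` is a unit for large `c`
  have hunit : ∀ c : ℂ, R < ‖c‖ → IsUnit (b - algebraMap ℂ B c) := by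
    intro c hc
    by_contra hu
    obtain ⟨m, hm, hcm⟩ := exists_max_ideal_of_mem_nonunits hu
    have : Algebra.FiniteType ℂ (B ⧸ m) := inferInstance
    let : Field (B ⧸ m) := Ideal.Quotient.field m
    have hfin : Module.Finite ℂ (B ⧸ m) := finite_of_finite_type_of_isJacobsonRing ℂ (B ⧸ m)
    have hbij : Function.Bijective (algebraMap ℂ (B ⧸ m)) :=
      IsAlgClosed.algebraMap_bijective_of_isIntegral
    let e : ℂ ≃ₐ[ℂ] (B ⧸ m) := AlgEquiv.ofBijective (Algebra.ofId ℂ (B ⧸ m)) hbij
    let φ : B →ₐ[ℂ] ℂ := (e.symm : (B ⧸ m) →ₐ[ℂ] ℂ).comp (Ideal.Quotient.mkₐ ℂ m)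
    have h1 : φ (b - algebraMap ℂ B c) = 0 := by
      have h0 : Ideal.Quotient.mkₐ ℂ m (b - algebraMap ℂ B c) = 0 := by
        rw [Ideal.Quotient.mkₐ_eq_mk]
        exact Ideal.Quotient.eq_zero_iff_mem.2 hcm
      change e.symm (Ideal.Quotient.mkₐ ℂ m (b - algebraMap ℂ B c)) = 0
      rw [h0, map_zero]
    rw [map_sub, AlgHom.commutes] at h1
    have h2 : φ b = c := by
      have := sub_eq_zero.1 h1
      simpa using this
    have h3 := hb φ
    rw [h2] at h3
    linarith
  -- uncountably many linearly independent elements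
  let F := FractionRing B
  have htr' : Transcendental ℂ (algebraMap B F b) := by
    rw [transcendental_algebraMap_iff (IsFractionRing.injective B F)]
    exact htr
  have hli := htr'.linearIndependent_sub_inv
  -- restrict to large `c`
  have hli2 : LinearIndependent ℂ fun a : {c : ℂ // R < ‖c‖} =>
      (algebraMap B F b - algebraMap ℂ F a)⁻¹ := hli.comp Subtype.val Subtype.val_injective
  have hli3 : LinearIndependent ℂ fun a : {c : ℂ // R < ‖c‖} =>
      ((hunit a a.2).unit⁻¹ : Bˣ).val := by
    have h1 : (fun a : {c : ℂ // R < ‖c‖} => (algebraMap B F b - algebraMap ℂ F a)⁻¹) =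
        (Algebra.linearMap B F).restrictScalars ℂ ∘ fun a : {c : ℂ // R < ‖c‖} =>
          ((hunit a a.2).unit⁻¹ : Bˣ).val := by
      funext a
      simp only [Function.comp]
      change _ = algebraMap B F _
      symm
      apply eq_inv_of_mul_eq_one_left
      have h2 : algebraMap B F b - algebraMap ℂ F a = algebraMap B F (b - algebraMap ℂ B a) := by
        rw [map_sub, ← IsScalarTower.algebraMap_apply]
      rw [h2, ← map_mul]
      have h3 : ((hunit a a.2).unit⁻¹ : Bˣ).val * (b - algebraMap ℂ B a) = 1 :=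
        (hunit a a.2).val_inv_mul
      rw [h3, map_one]
    rw [h1] at hli2
    exact hli2.of_comp _
  have hcard := hli3.cardinal_le_rank
  -- the rank is countable
  have hrank : Module.rank ℂ B ≤ Cardinal.aleph0 := by
    obtain ⟨n, f, hf⟩ := Algebra.FiniteType.iff_quotient_mvPolynomial''.1
      (inferInstance : Algebra.FiniteType ℂ B)
    refine (f.toLinearMap.rank_le_of_surjective hf).trans ?_
    rw [MvPolynomial.rank_eq]
    exact Cardinal.mk_le_aleph0
  have hcount : Cardinal.mk {c : ℂ // R < ‖c‖} ≤ Cardinal.aleph0 := hcard.trans hrank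
  have hcount' : ({c : ℂ | R < ‖c‖} : Set ℂ).Countable := Cardinal.le_aleph0_iff_set_countable.1 hcount
  -- contains a real ray
  have hsub : (fun x : ℝ => (x : ℂ)) '' Set.Ioi (max R 0) ⊆ {c : ℂ | R < ‖c‖} := by
    rintro _ ⟨x, hx, rfl⟩
    have h1 : max R 0 < x := hx
    change R < ‖(x : ℂ)‖
    rw [Complex.norm_real, Real.norm_eq_abs, abs_of_pos (lt_of_le_of_lt (le_max_right _ _) h1)]
    exact lt_of_le_of_lt (le_max_left _ _) h1
  have h4 := hcount'.mono hsub
  have h5 : (Set.Ioi (max R 0)).Countable :=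
    (Set.mapsTo_image _ _).countable_of_injOn Complex.ofReal_injective.injOn h4
  have h6 := Cardinal.mk_Ioi_real (max R 0)
  have h7 : Cardinal.mk (Set.Ioi (max R 0)) ≤ Cardinal.aleph0 :=
    Cardinal.le_aleph0_iff_set_countable.2 h5
  rw [h6] at h7
  exact absurd h7 (not_le.2 Cardinal.aleph0_lt_continuum)

/-- the maximal ideals of polynomial rings -/
theorem card_le_height {ι : Type} [Fintype ι] (z : ι → ℂ) :
    (Fintype.card ι : ℕ∞) ≤ (RingHom.ker (eval z)).height := by
  have h1 : ringKrullDim (MvPolynomial ι ℂ) ≤ ((RingHom.ker (eval z)).height : WithBot ℕ∞) := by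
    rw [ringKrullDim_le_iff_isMaximal_height_le]
    intro M hM
    obtain ⟨w, rfl⟩ := isMaximal_iff_eq_vanishingIdeal_singleton.1 hM
    -- translation
    let τ : MvPolynomial ι ℂ →ₐ[ℂ] MvPolynomial ι ℂ := aeval fun i => X i + C (w i - z i)
    let τ' : MvPolynomial ι ℂ →ₐ[ℂ] MvPolynomial ι ℂ := aeval fun i => X i - C (w i - z i)
    have h2 : τ.comp τ' = AlgHom.id ℂ _ := by
      ext i : 1
      simp [τ, τ', ← algebraMap_eq]
    have h3 : τ'.comp τ = AlgHom.id ℂ _ := by
      ext i : 1
      simp [τ, τ', ← algebraMap_eq]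
    let e : MvPolynomial ι ℂ ≃ₐ[ℂ] MvPolynomial ι ℂ := AlgEquiv.ofAlgHom τ τ' h2 h3
    have h4 : vanishingIdeal ℂ {w} = (RingHom.ker (eval z)).comap e.toRingEquiv := by
      ext p
      rw [mem_vanishingIdeal_singleton_iff, Ideal.mem_comap, RingHom.mem_ker]
      have h5 : (eval z) (τ p) = eval w p := by
        have h6 : (aeval z : MvPolynomial ι ℂ →ₐ[ℂ] ℂ).comp τ = aeval w := by
          ext i
          simp [τ]
        have h7 := DFunLike.congr_fun h6 p
        rw [AlgHom.comp_apply] at h7
        simpa only [aeval_eq_eval] using h7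
      constructor
      · intro h
        change (eval z) (τ p) = 0
        rw [h5]
        simpa [aeval_eq_eval] using h
      · intro h
        change (eval z) (τ p) = 0 at h
        rw [h5] at h
        simpa [aeval_eq_eval] using h
    rw [h4, RingEquiv.height_comap]
  rw [ringKrullDim_of_isNoetherianRing, ringKrullDim_eq_zero_of_field, zero_add,
    Nat.card_eq_fintype_card] at h1
  exact_mod_cast h1

/-- `k` polynomials with a bounded nonempty set of common zeros -/
theorem card_le_of_bounded {ι : Type} [Fintype ι] (z : ι → ℂ) (T : Finset ι)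
    (hT : ∀ i ∈ T, z i ≠ 0) {G : Set (MvPolynomial ι ℂ)} (hG : G.Finite)
    (hz : ∀ g ∈ G, eval z g = 0) (R : ℝ)
    (hb : ∀ y : ι → ℂ, (∀ i ∈ T, y i ≠ 0) → (∀ g ∈ G, eval y g = 0) → ∀ i, ‖y i‖ ≤ R) :
    Fintype.card ι ≤ G.ncard := by
  classical
  set m := RingHom.ker (eval z) with hm
  have hmp : m.IsPrime := RingHom.ker_isPrime _
  have hGm : Ideal.span G ≤ m := by
    rw [Ideal.span_le]
    intro g hg
    exact RingHom.mem_ker.2 (hz g hg)
  obtain ⟨P, hP, hPm⟩ := Ideal.exists_minimalPrimes_le hGm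
  have hPp : P.IsPrime := hP.1.1
  have hGP : Ideal.span G ≤ P := hP.1.2
  suffices h : P = m by
    rw [h] at hP
    have h1 := (card_le_height z).trans (Ideal.height_le_card_of_mem_minimalPrimes_span hG hP)
    exact_mod_cast h1
  let B := MvPolynomial ι ℂ ⧸ P
  let x : B := Ideal.Quotient.mk P (∏ i ∈ T, X i)
  have hx0 : x ≠ 0 := by
    intro h
    have h1 : (∏ i ∈ T, X i : MvPolynomial ι ℂ) ∈ P := Ideal.Quotient.eq_zero_iff_mem.1 h
    have h2 := hPm h1
    rw [hm, RingHom.mem_ker, map_prod, Finset.prod_eq_zero_iff] at h2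
    obtain ⟨i, hi, h3⟩ := h2
    rw [eval_X] at h3
    exact hT i hi h3
  let L := Localization.Away x
  have hle : Submonoid.powers x ≤ nonZeroDivisors B := powers_le_nonZeroDivisors_of_noZeroDivisors hx0
  have : IsDomain L := IsLocalization.isDomain_localization hle
  have : Algebra.FiniteType B L := IsLocalization.finiteType_of_monoid_fg (Submonoid.powers x) L
  have : Algebra.FiniteType ℂ L := Algebra.FiniteType.trans (inferInstance : Algebra.FiniteType ℂ B)
    (inferInstance : Algebra.FiniteType B L)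
  have hinj : Function.Injective (algebraMap B L) := IsLocalization.injective L hle
  have hcoord : ∀ i, (X i - C (z i) : MvPolynomial ι ℂ) ∈ P := by
    intro i
    obtain ⟨c, hc⟩ := const_of_bounded (algebraMap B L (Ideal.Quotient.mk P (X i))) R (by
      intro φ
      -- the point
      let ψ : MvPolynomial ι ℂ →ₐ[ℂ] ℂ := (φ.comp (IsScalarTower.toAlgHom ℂ B L)).comp
        (Ideal.Quotient.mkₐ ℂ P)
      have hψ : ∀ p, ψ p = eval (fun i => ψ (X i)) p := by
        intro p
        have h1 : ψ = aeval fun i => ψ (X i) := by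
          ext i
          simp
        conv_lhs => rw [h1]
        rw [aeval_eq_eval]
      have h2 := hb (fun i => ψ (X i)) (by
        intro j hj h0
        have h3 : ψ (∏ i ∈ T, X i) = 0 := by
          rw [map_prod]
          exact Finset.prod_eq_zero hj h0
        have h4 : ψ (∏ i ∈ T, X i) = φ (algebraMap B L x) := rfl
        have h5 : IsUnit (algebraMap B L x) := IsLocalization.Away.algebraMap_isUnit x
        have h6 := h5.map φ
        rw [← h4, h3] at h6
        exact not_isUnit_zero h6) (by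
        intro g hg
        rw [← hψ]
        have h3 : Ideal.Quotient.mkₐ ℂ P g = 0 := by
          rw [Ideal.Quotient.mkₐ_eq_mk]
          exact Ideal.Quotient.eq_zero_iff_mem.2 (hGP (Ideal.subset_span hg))
        change (φ.comp (IsScalarTower.toAlgHom ℂ B L)) (Ideal.Quotient.mkₐ ℂ P g) = 0
        rw [h3, map_zero]) i
      exact h2)
    have h1 : Ideal.Quotient.mk P (X i) = Ideal.Quotient.mk P (C c) := by
      apply hinj
      rw [hc]
      rw [IsScalarTower.algebraMap_apply ℂ B L]
      rfl
    have h2 : (X i - C c : MvPolynomial ι ℂ) ∈ P := by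
      rw [← Ideal.Quotient.eq_zero_iff_mem, map_sub, h1, sub_self]
    have h3 := hPm h2
    rw [hm, RingHom.mem_ker, map_sub, eval_X, eval_C, sub_eq_zero] at h3
    rw [h3]
    exact h2
  refine le_antisymm hPm ?_
  intro p hp
  rw [hm, RingHom.mem_ker] at hp
  rw [← Ideal.Quotient.eq_zero_iff_mem]
  have h1 : (Ideal.Quotient.mkₐ ℂ P) = (Algebra.ofId ℂ B).comp (aeval z) := by
    ext i
    have h2 := hcoord i
    rw [← Ideal.Quotient.eq_zero_iff_mem, map_sub, sub_eq_zero] at h2
    simp only [Ideal.Quotient.mkₐ_eq_mk, AlgHom.comp_apply, aeval_X]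
    rw [h2]
    rfl
  have h2 : Ideal.Quotient.mkₐ ℂ P p = (Algebra.ofId ℂ B).comp (aeval z) p := by rw [h1]
  rw [Ideal.Quotient.mkₐ_eq_mk] at h2
  rw [h2, AlgHom.comp_apply, aeval_eq_eval]
  have h3 : (eval z) p = 0 := hp
  change Algebra.ofId ℂ B ((eval z) p) = 0
  rw [h3, map_zero]

end H90.TF
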