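import Pool.Agent.H90.TF.Fan

/-!
# Boundedness of the characters on a subscheme of the open orbit of a complete toric variety
-/

set_option autoImplicit false

namespace H90.TF

open MvPolynomial

variable {ι : Type} [Fintype ι] {N : ℕ} {u : ι → Fin N → ℤ} {S : Set (Set ι)}

/-- the character of the linear form `m` -/
noncomputable def ch (u : ι → Fin N → ℤ) (m : Fin N → ℤ) (y : ι → ℂ) : ℂ :=
  ∏ i, y i ^ pr u m i

/-- `t` is in the group by which the toric variety is a quotient -/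
def IsRel (u : ι → Fin N → ℤ) (t : ι → ℂ) : Prop :=
  (∀ i, t i ≠ 0) ∧ ∀ m : Fin N → ℤ, ∏ i, t i ^ pr u m i = 1

theorem ch_rel {t : ι → ℂ} (ht : IsRel u t) (m : Fin N → ℤ) (y : ι → ℂ) :
    ch u m (fun i => t i * y i) = ch u m y := by
  simp only [ch, mul_zpow, Finset.prod_mul_distrib, ht.2 m, one_mul]

theorem eval_rel {t : ι → ℂ} (ht : IsRel u t) {f : MvPolynomial ι ℂ} {D : ι → ℤ}
    (hf : IsHomog u f D) (y : ι → ℂ) :
    eval (fun i => t i * y i) f = (∏ i, t i ^ D i) * eval y f := by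
  rw [eval_eq', eval_eq', Finset.mul_sum]
  refine Finset.sum_congr rfl fun α hα => ?_
  obtain ⟨m, hm⟩ := hf α hα
  replace hm : ∀ i, (α i : ℤ) = D i + pr u m i := hm
  have h1 : ∏ i, t i ^ α i = ∏ i, t i ^ D i := by
    have h2 : ∀ i, t i ^ α i = t i ^ D i * t i ^ pr u m i := fun i => by
      rw [← zpow_natCast, hm i, zpow_add₀ (ht.1 i)]
    simp only [h2, Finset.prod_mul_distrib, ht.2 m, mul_one]
  simp only [mul_pow, Finset.prod_mul_distrib, h1]
  ring

theorem isRel_exp {θ : ι → ℝ} (hθ : ∀ k, ∑ i, θ i * (u i k : ℝ) = 0) :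
    IsRel u fun i => ((Real.exp (θ i) : ℝ) : ℂ) := by
  refine ⟨fun i => Complex.ofReal_ne_zero.2 (Real.exp_pos _).ne', fun m => ?_⟩
  have h1 : ∀ i, ((Real.exp (θ i) : ℝ) : ℂ) ^ pr u m i =
      ((Real.exp (θ i * pr u (fun k => (m k : ℝ)) i) : ℝ) : ℂ) := fun i => by
    have h2 : pr u (fun k => (m k : ℝ)) i = ((pr u m i : ℤ) : ℝ) := by simp [pr]
    rw [h2, mul_comm, Complex.ofReal_exp, Complex.ofReal_exp, ← Complex.exp_int_mul]
    congr 1
    push_cast
    ring
  simp only [h1]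
  rw [← Complex.ofReal_prod, ← Real.exp_sum, sum_pr_zero hθ]
  simp

theorem ch_bounded (hS : IsFan u S) {c : ℕ} {f : Fin c → MvPolynomial ι ℂ} {D : Fin c → ι → ℤ}
    (hf : ∀ j, IsHomog u (f j) (D j)) {τ : Set ι} (hτ : τ ∈ S)
    (hmax : ∀ y, IsPoint S f y → τ ⊆ {i | y i = 0} → {i | y i = 0} = τ) (m : Fin N → ℤ)
    (hm : ∀ l ∈ τ, pr u m l = 0) :
    ∃ C : ℝ, ∀ y, IsPoint S f y → {i | y i = 0} = τ → ‖ch u m y‖ ≤ C := by
  classical
  let Ks : Set ι → Set (ι → ℂ) := fun σ => {y | (∀ i, ‖y i‖ ≤ 1) ∧ (∀ i, i ∉ σ → ‖y i‖ = 1) ∧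
    (∀ i ∈ τ, y i = 0) ∧ ∀ j, eval y (f j) = 0}
  have hcomp : ∀ σ, IsCompact (Ks σ) := by
    intro σ
    apply Metric.isCompact_of_isClosed_isBounded
    · have h1 : Ks σ = (⋂ i, {y : ι → ℂ | ‖y i‖ ≤ 1}) ∩ ((⋂ i, ⋂ (_ : i ∉ σ),
          {y : ι → ℂ | ‖y i‖ = 1}) ∩ ((⋂ i, ⋂ (_ : i ∈ τ), {y : ι → ℂ | y i = 0}) ∩
          ⋂ j, {y : ι → ℂ | eval y (f j) = 0})) := by
        ext y
        simp only [Ks, Set.mem_ofPred_eq, Set.mem_inter_iff, Set.mem_iInter]
      rw [h1]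
      refine IsClosed.inter (isClosed_iInter fun i => isClosed_le (by fun_prop) continuous_const)
        (IsClosed.inter (isClosed_iInter fun i => isClosed_iInter fun _ =>
          isClosed_eq (by fun_prop) continuous_const) (IsClosed.inter
          (isClosed_iInter fun i => isClosed_iInter fun _ =>
          isClosed_eq (by fun_prop) continuous_const) (isClosed_iInter fun j =>
          isClosed_eq (MvPolynomial.continuous_eval _) continuous_const)))
    · refine (Metric.isBounded_closedBall (x := (0 : ι → ℂ)) (r := 1)).subset ?_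
      intro y hy
      rw [mem_closedBall_zero_iff]
      exact (pi_norm_le_iff_of_nonneg zero_le_one).2 hy.1
  have hzero : ∀ σ ∈ S, τ ⊆ σ → ∀ y ∈ Ks σ, {i | y i = 0} = τ := by
    intro σ hσ hτσ y hy
    apply hmax y
    · refine ⟨hS.face σ hσ _ ?_, hy.2.2.2⟩
      intro i hi
      by_contra h
      have h1 := hy.2.1 i h
      rw [show y i = 0 from hi, norm_zero] at h1
      exact zero_ne_one h1
    · exact fun i hi => hy.2.2.1 i hi
  have hbd : ∀ σ : Set ι, ∃ C : ℝ, σ ∈ S → τ ⊆ σ → ∀ y ∈ Ks σ, ‖ch u m y‖ ≤ C := by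
    intro σ
    by_cases hσ : σ ∈ S ∧ τ ⊆ σ
    · have hcont : ContinuousOn (ch u m) (Ks σ) := by
        refine continuousOn_finsetProd _ fun i _ => ?_
        by_cases hi : i ∈ τ
        · simp only [hm i hi, zpow_zero]
          exact continuousOn_const
        · refine (continuous_apply i).continuousOn.zpow₀ _ fun y hy => Or.inl ?_
          intro h
          apply hi
          rw [← hzero σ hσ.1 hσ.2 y hy]
          exact h
      obtain ⟨C, hC⟩ := (hcomp σ).exists_bound_of_continuousOn hcont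
      exact ⟨C, fun _ _ => hC⟩
    · exact ⟨0, fun h1 h2 => absurd ⟨h1, h2⟩ hσ⟩
  choose C hC using hbd
  obtain ⟨B, hB⟩ := (Set.finite_range C).bddAbove
  refine ⟨B, fun y hy hyτ => ?_⟩
  -- normalization
  obtain ⟨σ, hσ, hτσ, x, hx1, hx2, hx3⟩ := hS.star hτ
    fun k => -∑ i, (if i ∈ τ then 0 else Real.log ‖y i‖) * (u i k : ℝ)
  let θ : ι → ℝ := fun i => -(if i ∈ τ then 0 else Real.log ‖y i‖) - x i
  have hθ : ∀ k, ∑ i, θ i * (u i k : ℝ) = 0 := by
    intro k
    simp only [θ, sub_mul, neg_mul, Finset.sum_sub_distrib, Finset.sum_neg_distrib, hx3]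
    ring
  have ht := isRel_exp hθ
  have hyi : ∀ i, i ∉ τ → y i ≠ 0 := fun i hi h => hi (by rw [← hyτ]; exact h)
  have hnorm : ∀ i, i ∉ τ → ‖((Real.exp (θ i) : ℝ) : ℂ) * y i‖ = Real.exp (-x i) := by
    intro i hi
    have h1 : 0 < ‖y i‖ := norm_pos_iff.2 (hyi i hi)
    rw [norm_mul, Complex.norm_real, Real.norm_eq_abs, abs_of_pos (Real.exp_pos _)]
    simp only [θ, if_neg hi]
    rw [sub_eq_add_neg, Real.exp_add, Real.exp_neg, Real.exp_log h1]
    field_simp
  have hmem : (fun i => ((Real.exp (θ i) : ℝ) : ℂ) * y i) ∈ Ks σ := by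
    refine ⟨fun i => ?_, fun i hi => ?_, fun i hi => ?_, fun j => ?_⟩
    · by_cases hi : i ∈ τ
      · have h1 : y i = 0 := by
          have : i ∈ {i | y i = 0} := by rw [hyτ]; exact hi
          exact this
        simp [h1]
      · rw [hnorm i hi]
        exact Real.exp_le_one_iff.2 (neg_nonpos.2 (hx1 i hi))
    · have h1 : i ∉ τ := fun h => hi (hτσ h)
      rw [hnorm i h1, hx2 i hi, neg_zero, Real.exp_zero]
    · have h1 : y i = 0 := by
        have : i ∈ {i | y i = 0} := by rw [hyτ]; exact hi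
        exact this
      simp [h1]
    · rw [eval_rel ht (hf j), hy.2 j, mul_zero]
  rw [← ch_rel ht m y]
  exact (hC σ hσ hτσ _ hmem).trans (hB ⟨σ, rfl⟩)

end H90.TF
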