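import Mathlib

/-!
# Complete intersections in toric varieties: definitions

Let `u_i`, `i ∈ ι`, be the rays of a complete simplicial fan in `ℤ^N`, and let `P` be its toric
variety. The points of `P` are the `y ∈ ℂ^ι` such that `{i | y_i = 0}` is a cone, modulo the group of
the `t ∈ (ℂˣ)^ι` with `∏ t_i ^ (u_i)_k = 1` for all `k` (Cox). The classes of Weil divisors on `P` are
the classes of `a ∈ ℤ^ι` for linear equivalence, and the global sections of `O_P(∑ a_i D_i)` are the
polynomials in the Cox coordinates whose monomials are linearly equivalent to `a`. The class group may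
have torsion.
-/

set_option autoImplicit false

namespace H90.TF

open MvPolynomial

variable {ι : Type} [Fintype ι] {N : ℕ}

/-- The value of the linear form `m` at the ray `u i`. -/
def pr {K : Type} [CommRing K] (u : ι → Fin N → ℤ) (m : Fin N → K) (i : ι) : K :=
  ∑ k, m k * (u i k : K)

/-- The vectors `u i` are the primitive generators of the rays of a complete simplicial fan in `ℤ^N`,
and `S` is the set of the sets `σ` such that the `u i`, `i ∈ σ`, generate a cone of the fan: each
vector of `ℝ^N` is in exactly one way a sum of multiples `a i • u i`, `a i ≥ 0`, such that the `u i`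
with `a i ≠ 0` generate a cone. -/
structure IsFan (u : ι → Fin N → ℤ) (S : Set (Set ι)) : Prop where
  primitive : ∀ (i : ι) (k : ℕ) (w : Fin N → ℤ), (∀ l, u i l = k * w l) → k = 1
  ray : ∀ i, {i} ∈ S
  face : ∀ σ ∈ S, ∀ τ ⊆ σ, τ ∈ S
  rep : ∀ w : Fin N → ℝ, ∃! a : ι → ℝ, (∀ i, 0 ≤ a i) ∧ {i | a i ≠ 0} ∈ S ∧
    ∀ k, ∑ i, a i * (u i k : ℝ) = w k

/-- The divisors `∑ α_i D_i` and `∑ β_i D_i` are linearly equivalent. -/
def LinEquiv (u : ι → Fin N → ℤ) (α β : ι → ℤ) : Prop :=
  ∃ m : Fin N → ℤ, ∀ i, α i = β i + pr u m i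

/-- The divisors `∑ α_i D_i` and `∑ β_i D_i` are numerically equivalent: they are `ℝ`-linearly
equivalent; their difference is a torsion class. -/
def NumEquiv (u : ι → Fin N → ℤ) (α β : ι → ℤ) : Prop :=
  ∃ m : Fin N → ℝ, ∀ i, (α i : ℝ) = β i + pr u m i

/-- `σ` is a maximal cone. -/
def IsMax (S : Set (Set ι)) (σ : Set ι) : Prop := σ ∈ S ∧ ∀ τ ∈ S, σ ⊆ τ → τ = σ

/-- The divisor class `a` is ample and numerically base point free: for each maximal cone `σ` there
is an effective divisor `∑ β_i D_i`, `β_i ∈ ℕ`, numerically equivalent to `∑ a_i D_i`, with `β_i = 0`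
exactly for `i ∈ σ`. (The `ℝ`-divisor `∑ β_i D_i` in the class with `β_i = 0` for `i ∈ σ` is unique; the
class is ample if and only if for all `σ` it is positive for `i ∉ σ`; the additional condition is that
the `β_i` are integers.) -/
def IsAmpleFree (u : ι → Fin N → ℤ) (S : Set (Set ι)) (a : ι → ℤ) : Prop :=
  ∀ σ, IsMax S σ → ∃ β : ι → ℕ, (∀ i, β i = 0 ↔ i ∈ σ) ∧ NumEquiv u (fun i => (β i : ℤ)) a

/-- The cone `σ` is regular: the `u i`, `i ∈ σ`, are a part of a basis of `ℤ^N` (there are dual
integral linear forms). The toric variety is smooth along the orbit of a regular cone. -/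
def IsRegularCone (u : ι → Fin N → ℤ) (σ : Set ι) : Prop :=
  ∃ m : ι → Fin N → ℤ, ∀ l ∈ σ, pr u (m l) l = 1 ∧ ∀ i ∈ σ, i ≠ l → pr u (m l) i = 0

/-- `f` is homogeneous of the class `D`. -/
def IsHomog (u : ι → Fin N → ℤ) (f : MvPolynomial ι ℂ) (D : ι → ℤ) : Prop :=
  ∀ α ∈ f.support, LinEquiv u (fun i => (α i : ℤ)) D

/-- `y` represents a point of the subscheme `X` of the toric variety defined by the `f j`. -/
def IsPoint {c : ℕ} (S : Set (Set ι)) (f : Fin c → MvPolynomial ι ℂ) (y : ι → ℂ) : Prop :=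
  {i | y i = 0} ∈ S ∧ ∀ j, eval y (f j) = 0

end H90.TF
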