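import Mathlib

/-!
# Linear algebra: replacing vectors by elements of generating sets
-/

set_option autoImplicit false

namespace H90.TF

open Module Submodule

/-- integer vectors which are linearly independent over `ℤ` are linearly independent over `ℂ` -/
theorem cast_li {J : Type*} {N : ℕ} {v : J → Fin N → ℤ} (h : LinearIndependent ℤ v) :
    LinearIndependent ℂ fun j k => (v j k : ℂ) := by
  classical
  -- over `ℚ`
  have h1 : LinearIndependent ℚ fun j k => (v j k : ℚ) := by
    rw [← LinearIndependent.iff_fractionRing ℤ ℚ]
    let g : (Fin N → ℤ) →ₗ[ℤ] (Fin N → ℚ) := LinearMap.funLeft ℤ ℚ id ∘ₗ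
      { toFun := fun w k => (w k : ℚ)
        map_add' := fun x y => by funext k; simp
        map_smul' := fun c x => by funext k; simp }
    have hg : Function.Injective g := by
      intro x y hxy
      funext k
      have := congrFun hxy k
      simpa [g] using this
    have h2 := h.map' g (LinearMap.ker_eq_bot.2 hg)
    exact h2
  -- a left inverse
  let L : (J →₀ ℚ) →ₗ[ℚ] (Fin N → ℚ) := Finsupp.linearCombination ℚ fun j k => (v j k : ℚ)
  obtain ⟨g, hg⟩ := LinearMap.exists_leftInverse_of_injective L (LinearMap.ker_eq_bot.2 h1)
  have hgv : ∀ j, g (fun k => (v j k : ℚ)) = Finsupp.single j 1 := by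
    intro j
    have h2 : L (Finsupp.single j 1) = fun k => (v j k : ℚ) := by simp [L]
    rw [← h2]
    exact DFunLike.congr_fun hg _
  -- the same coefficients over `ℂ`
  have hgv' : ∀ i j, ∑ k, (v j k : ℚ) * g (Pi.single k 1) i = if j = i then 1 else 0 := by
    classical
    intro i j
    have h2 := DFunLike.congr_fun (hgv j) i
    rw [Finsupp.single_apply] at h2
    rw [← h2]
    have h3 : (fun k => (v j k : ℚ)) = ∑ k, (v j k : ℚ) • (Pi.single k 1 : Fin N → ℚ) := by
      funext k
      simp [Finset.sum_apply, Pi.single_apply]
    conv_rhs => rw [h3]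
    rw [map_sum]
    simp
  rw [linearIndependent_iff']
  intro s c hc i hi
  classical
  have h2 : ∑ k, (∑ j ∈ s, c j • fun k => (v j k : ℂ)) k * ((g (Pi.single k 1) i : ℚ) : ℂ) = 0 := by
    rw [hc]; simp
  have h3 : ∑ k, (∑ j ∈ s, c j • fun k => (v j k : ℂ)) k * ((g (Pi.single k 1) i : ℚ) : ℂ) =
      ∑ j ∈ s, c j * ((∑ k, (v j k : ℚ) * g (Pi.single k 1) i : ℚ) : ℂ) := by
    simp only [Finset.sum_apply, Pi.smul_apply, smul_eq_mul, Finset.sum_mul, Finset.mul_sum,
      Rat.cast_sum, Rat.cast_mul, Rat.cast_intCast]
    rw [Finset.sum_comm]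
    refine Finset.sum_congr rfl fun j _ => Finset.sum_congr rfl fun k _ => by ring
  rw [h3] at h2
  simp only [hgv'] at h2
  rw [Finset.sum_eq_single i] at h2
  · simpa using h2
  · intro j _ hj; simp [hj]
  · intro h; exact absurd hi h

variable {K : Type*} [Field K] {V Y : Type*} [AddCommGroup V] [Module K V] [AddCommGroup Y]
  [Module K Y] {J : Type*} [Fintype J] [DecidableEq J]

theorem exists_notMem_of_span {X : Set V} {H : Submodule K V} {x : V} (hx : x ∈ span K X)
    (hxH : x ∉ H) : ∃ y ∈ X, y ∉ H := by
  by_contra hcon
  push Not at hcon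
  exact hxH (span_le.2 hcon hx)

omit [Fintype J] in
theorem li_update {x : J → V} (hx : LinearIndependent K x) {j : J} {y : V}
    (hy : y ∉ span K (x '' {i | i ≠ j})) : LinearIndependent K (Function.update x j y) := by
  rw [linearIndependent_iff']
  intro s c hc i hi
  by_cases hj : j ∈ s
  · have h1 : c j = 0 := by
      by_contra hcj
      apply hy
      have h2 : c j • y = - ∑ i ∈ s.erase j, c i • x i := by
        rw [← Finset.add_sum_erase _ _ hj, Function.update_self] at hc
        rw [eq_neg_iff_add_eq_zero, ← hc]
        congr 1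
        refine Finset.sum_congr rfl fun i hi => ?_
        rw [Function.update_of_ne (Finset.ne_of_mem_erase hi)]
      have h3 : c j • y ∈ span K (x '' {i | i ≠ j}) := by
        rw [h2]
        refine neg_mem (sum_mem fun i hi => smul_mem _ _ (subset_span ⟨i, ?_, rfl⟩))
        exact Finset.ne_of_mem_erase hi
      exact (smul_mem_iff _ hcj).1 h3
    by_cases hij : i = j
    · rw [hij]; exact h1
    · rw [← Finset.add_sum_erase _ _ hj, h1, zero_smul, zero_add] at hc
      have h2 : ∑ i ∈ s.erase j, c i • x i = 0 := by
        rw [← hc]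
        refine Finset.sum_congr rfl fun i hi => ?_
        rw [Function.update_of_ne (Finset.ne_of_mem_erase hi)]
      exact linearIndependent_iff'.1 hx _ c h2 i (Finset.mem_erase.2 ⟨hij, hi⟩)
  · have h2 : ∑ i ∈ s, c i • x i = 0 := by
      rw [← hc]
      refine Finset.sum_congr rfl fun i hi => ?_
      rw [Function.update_of_ne (fun e : i = j => hj (e ▸ hi))]
    exact linearIndependent_iff'.1 hx _ c h2 i hi

/-- replacing the vectors of an independent family, whose images under `p` span `E`, by elements of
generating sets -/
theorem replace (p : V →ₗ[K] Y) (E : Submodule K Y) (X : J → Set V)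
    (hXE : ∀ j, ∀ x ∈ X j, p x ∈ E) {w : J → V} (hw : ∀ j, w j ∈ span K (X j))
    (h1 : LinearIndependent K w) (h2 : span K (Set.range fun j => p (w j)) = E) :
    ∃ x : J → V, (∀ j, x j ∈ X j) ∧ LinearIndependent K x ∧
      span K (Set.range fun j => p (x j)) = E := by
  have key : ∀ T : Finset J, ∃ x : J → V, (∀ j ∈ T, x j ∈ X j) ∧ (∀ j, x j ∈ span K (X j)) ∧
      LinearIndependent K x ∧ span K (Set.range fun j => p (x j)) = E := by
    intro T
    induction T using Finset.induction_on with
    | empty => exact ⟨w, by simp, hw, h1, h2⟩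
    | insert j T hjT ih =>
      obtain ⟨x, hxT, hxs, hli, hsp⟩ := ih
      have hnot : x j ∉ span K (x '' {i | i ≠ j}) := by
        have := linearIndependent_iff_notMem_span.1 hli j
        rwa [show (Set.univ \ {j} : Set J) = {i | i ≠ j} by ext; simp] at this
      have hEs : span K ((fun i => p (x i)) '' {i | i ≠ j}) ≤ E := by
        rw [← hsp]
        exact span_mono (Set.image_subset_range _ _)
      -- the new vector
      obtain ⟨y, hyX, hyn, hyE⟩ : ∃ y ∈ X j, y ∉ span K (x '' {i | i ≠ j}) ∧
          E ≤ span K ((fun i => p (x i)) '' {i | i ≠ j}) ⊔ span K {p y} := by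
        by_cases hA : E ≤ span K ((fun i => p (x i)) '' {i | i ≠ j})
        · obtain ⟨y, hy1, hy2⟩ := exists_notMem_of_span (hxs j) hnot
          exact ⟨y, hy1, hy2, hA.trans le_sup_left⟩
        · have hB : p (x j) ∉ span K ((fun i => p (x i)) '' {i | i ≠ j}) := by
            intro hB
            apply hA
            rw [← hsp, span_le]
            rintro _ ⟨i, rfl⟩
            by_cases hi : i = j
            · rw [hi]; exact hB
            · exact subset_span ⟨i, hi, rfl⟩
          obtain ⟨y, hy1, hy2⟩ := exists_notMem_of_span (H := (span K ((fun i => p (x i)) ''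
            {i | i ≠ j})).comap p) (hxs j) hB
          refine ⟨y, hy1, fun hy3 => hy2 ?_, ?_⟩
          · have h3 : span K (x '' {i | i ≠ j}) ≤ (span K ((fun i => p (x i)) ''
              {i | i ≠ j})).comap p := by
              rw [span_le]
              rintro _ ⟨i, hi, rfl⟩
              exact subset_span ⟨i, hi, rfl⟩
            exact h3 hy3
          · -- exchange
            have h4 : p y ∈ E := hXE j y hy1
            have h5 : p y ∈ span K (insert (p (x j)) ((fun i => p (x i)) '' {i | i ≠ j})) := by
              rw [← hsp] at h4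
              refine (span_mono ?_) h4
              rintro _ ⟨i, rfl⟩
              by_cases hi : i = j
              · left; rw [hi]
              · right; exact ⟨i, hi, rfl⟩
            rw [mem_span_insert] at h5
            obtain ⟨κ, q, hq, hpy⟩ := h5
            have hκ : κ ≠ 0 := by
              rintro rfl
              apply hy2
              change p y ∈ span K ((fun i => p (x i)) '' {i | i ≠ j})
              rw [hpy, zero_smul, zero_add]
              exact hq
            rw [← hsp, span_le]
            rintro _ ⟨i, rfl⟩
            by_cases hi : i = j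
            · rw [hi]
              have h6 : p (x j) = κ⁻¹ • (p y - q) := by
                rw [hpy, add_sub_cancel_right, smul_smul, inv_mul_cancel₀ hκ, one_smul]
              change p (x j) ∈ (span K ((fun i => p (x i)) '' {i | i ≠ j}) ⊔ span K {p y} :
                Submodule K Y)
              rw [h6]
              exact smul_mem _ _ (sub_mem (mem_sup_right (mem_span_singleton_self _))
                (mem_sup_left hq))
            · exact mem_sup_left (subset_span ⟨i, hi, rfl⟩)
      refine ⟨Function.update x j y, ?_, ?_, li_update hli hyn, ?_⟩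
      · intro i hi
        by_cases hij : i = j
        · subst hij; rw [Function.update_self]; exact hyX
        · rw [Function.update_of_ne hij]
          exact hxT i ((Finset.mem_insert.1 hi).resolve_left hij)
      · intro i
        by_cases hij : i = j
        · subst hij; rw [Function.update_self]; exact subset_span hyX
        · rw [Function.update_of_ne hij]; exact hxs i
      · apply le_antisymm
        · rw [span_le]
          rintro _ ⟨i, rfl⟩
          by_cases hij : i = j
          · subst hij
            simp only [Function.update_self]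
            exact hXE i y hyX
          · simp only [Function.update_of_ne hij]
            exact hEs (subset_span ⟨i, hij, rfl⟩)
        · refine hyE.trans (sup_le ?_ ?_)
          · rw [span_le]
            rintro _ ⟨i, hi, rfl⟩
            refine subset_span ⟨i, ?_⟩
            simp only [Function.update_of_ne hi]
          · rw [span_le, Set.singleton_subset_iff]
            refine subset_span ⟨j, ?_⟩
            simp only [Function.update_self]
  obtain ⟨x, hx, -, h3, h4⟩ := key Finset.univ
  exact ⟨x, fun j => hx j (Finset.mem_univ _), h3, h4⟩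

theorem exists_dual {κ : Type*} [Fintype κ] [DecidableEq κ] {w : κ → V}
    (h : LinearIndependent K w) : ∃ g : V →ₗ[K] (κ → K), ∀ j, g (w j) = Pi.single j 1 := by
  let L : (κ → K) →ₗ[K] V := Fintype.linearCombination K w
  have hL : LinearMap.ker L = ⊥ := by
    rw [LinearMap.ker_eq_bot']
    intro c hc
    funext i
    exact Fintype.linearIndependent_iff.1 h c (by simpa [L, Fintype.linearCombination_apply] using hc) i
  obtain ⟨g, hg⟩ := LinearMap.exists_leftInverse_of_injective L hL
  refine ⟨g, fun j => ?_⟩
  have h2 : L (Pi.single j 1) = w j := by simp [L]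
  rw [← h2]
  exact DFunLike.congr_fun hg _

theorem li_of_det {κ : Type*} [Fintype κ] [DecidableEq κ] {w : κ → V} (g : V →ₗ[K] (κ → K))
    (h : (Matrix.of fun i j => g (w j) i).det ≠ 0) : LinearIndependent K w := by
  rw [Fintype.linearIndependent_iff]
  intro c hc i
  have h1 : (Matrix.of fun i j => g (w j) i).mulVec c = 0 := by
    funext i
    have h2 := congrFun (congrArg g hc) i
    rw [map_sum, map_zero] at h2
    simp only [map_smul, Finset.sum_apply, Pi.smul_apply, smul_eq_mul, Pi.zero_apply] at h2
    simp only [Matrix.mulVec, dotProduct, Matrix.of_apply, Pi.zero_apply]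
    rw [← h2]
    exact Finset.sum_congr rfl fun j _ => mul_comm _ _
  exact congrFun (Matrix.eq_zero_of_mulVec_eq_zero h h1) i

omit [Fintype J] [DecidableEq J] in
theorem finite_det {κ : Type*} [Fintype κ] [DecidableEq κ] (A : Matrix κ κ K) :
    ∃ F : Finset K, ∀ μ ∉ F, (A + μ • (1 : Matrix κ κ K)).det ≠ 0 := by
  classical
  refine ⟨(-A).charpoly.roots.toFinset, fun μ hμ h => hμ ?_⟩
  rw [Multiset.mem_toFinset, Polynomial.mem_roots (Matrix.charpoly_monic _).ne_zero,
    Polynomial.IsRoot.def, Matrix.eval_charpoly]
  rw [← h]
  congr 1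
  rw [sub_neg_eq_add, add_comm, Matrix.scalar_apply, Matrix.smul_one_eq_diagonal]

/-- a generic perturbation is independent and has spanning images -/
theorem perturb [Infinite K] (p : V →ₗ[K] Y) {w a : J → V} (h1 : LinearIndependent K w)
    (h2 : ∀ j, p (w j) ∈ span K (Set.range fun j => p (a j))) :
    ∃ μ : K, LinearIndependent K (fun j => a j + μ • w j) ∧
      span K (Set.range fun j => p (a j + μ • w j)) = span K (Set.range fun j => p (a j)) := by
  classical
  set E := span K (Set.range fun j => p (a j)) with hE
  obtain ⟨g, hg⟩ := exists_dual h1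
  obtain ⟨F1, hF1⟩ := finite_det (Matrix.of fun i j => g (a j) i)
  obtain ⟨κ, e, he, hes, hel⟩ := exists_linearIndependent' K fun j => p (a j)
  have : Finite κ := Finite.of_injective e he
  have := Fintype.ofFinite κ
  obtain ⟨g', hg'⟩ := exists_dual hel
  obtain ⟨F2, hF2⟩ := finite_det (Matrix.of fun i j => g' (p (w (e j))) i)
  obtain ⟨μ, hμ⟩ := Infinite.exists_notMem_finset (insert (0 : K) (F1 ∪ F2.image fun x => x⁻¹))
  simp only [Finset.mem_insert, Finset.mem_union, Finset.mem_image, not_or, not_exists,
    not_and] at hμ
  obtain ⟨hμ0, hμ1, hμ2⟩ := hμ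
  have hμ2' : μ⁻¹ ∉ F2 := fun h => hμ2 _ h (inv_inv μ)
  have hfd : FiniteDimensional K E := FiniteDimensional.span_of_finite K (Set.finite_range _)
  have hle : ∀ j, p (a j + μ • w j) ∈ E := fun j => by
    rw [map_add, map_smul]
    exact add_mem (subset_span ⟨j, rfl⟩) (smul_mem _ _ (h2 j))
  refine ⟨μ, ?_, ?_⟩
  · apply li_of_det g
    have h3 : (Matrix.of fun i j => g (a j + μ • w j) i) =
        (Matrix.of fun i j => g (a j) i) + μ • (1 : Matrix J J K) := by
      ext i j
      simp [hg, Matrix.one_apply, Pi.single_apply]
    rw [h3]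
    exact hF1 μ hμ1
  · have h3 : LinearIndependent K fun i => p (a (e i) + μ • w (e i)) := by
      apply li_of_det g'
      have h4 : (Matrix.of fun i j => g' (p (a (e j) + μ • w (e j))) i) =
          μ • ((Matrix.of fun i j => g' (p (w (e j))) i) + μ⁻¹ • (1 : Matrix κ κ K)) := by
        ext i j
        have h5 := congrFun (hg' j) i
        simp only [Function.comp] at h5
        simp only [Matrix.of_apply, map_add, map_smul, Pi.add_apply, Pi.smul_apply, smul_eq_mul,
          Matrix.smul_apply, Matrix.add_apply, Matrix.one_apply, h5, Pi.single_apply]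
        rw [mul_add, ← mul_assoc, mul_inv_cancel₀ hμ0, one_mul]
        ring
      rw [h4, Matrix.det_smul]
      exact mul_ne_zero (pow_ne_zero _ hμ0) (hF2 _ hμ2')
    apply le_antisymm
    · rw [span_le]
      rintro _ ⟨j, rfl⟩
      exact hle j
    · have h4 : span K (Set.range fun i => p (a (e i) + μ • w (e i))) = E := by
        apply eq_of_le_of_finrank_le
        · rw [span_le]
          rintro _ ⟨j, rfl⟩
          exact hle _
        · rw [finrank_span_eq_card h3, hE, ← hes, finrank_span_eq_card hel]
      rw [← h4]
      apply span_mono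
      rintro _ ⟨i, rfl⟩
      exact ⟨e i, rfl⟩

end H90.TF
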