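import Mathlib

/-!
# Transversals of families of subspaces

A defect version of the theorem of Rado: if `dim (∑_{j ∈ s} U_j) + |J \ s| ≥ dim W` for all
`s ⊆ J` then there are vectors `a_j ∈ U_j` which span `W`.
-/

set_option autoImplicit false

namespace H90.TF

open Module Submodule

theorem exists_max {α : Type*} (P : α → Prop) (hne : ∃ a, P a) (φ : α → ℕ) (B : ℕ)
    (hB : ∀ a, P a → φ a ≤ B) : ∃ a, P a ∧ ∀ b, P b → φ b ≤ φ a := by
  classical
  obtain ⟨a₀, ha₀⟩ := hne
  have h1 : ∃ a, P a ∧ φ a = Nat.findGreatest (fun n => ∃ a, P a ∧ φ a = n) B :=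
    Nat.findGreatest_spec (P := fun n => ∃ a, P a ∧ φ a = n) (hB a₀ ha₀) ⟨a₀, ha₀, rfl⟩
  obtain ⟨a, ha, h2⟩ := h1
  refine ⟨a, ha, fun b hb => ?_⟩
  rw [h2]
  exact Nat.le_findGreatest (P := fun n => ∃ a, P a ∧ φ a = n) (hB b hb) ⟨b, hb, rfl⟩

variable {K : Type*} [Field K] {W : Type*} [AddCommGroup W] [Module K W]
  {J : Type*} [Fintype J] [DecidableEq J]

/-- the indices whose vector is in the span of the others -/
noncomputable def nc (K : Type*) [Field K] {W : Type*} [AddCommGroup W] [Module K W]
    {J : Type*} [Fintype J] (a : J → W) : Finset J :=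
  open Classical in Finset.univ.filter fun j => a j ∈ span K (a '' {i | i ≠ j})

omit [DecidableEq J] in
theorem mem_nc {a : J → W} {j : J} : j ∈ nc K a ↔ a j ∈ span K (a '' {i | i ≠ j}) := by
  classical
  simp [nc]

omit [Fintype J] [DecidableEq J] in
theorem span_ne {a : J → W} {j : J} (h : a j ∈ span K (a '' {i | i ≠ j})) :
    span K (a '' {i | i ≠ j}) = span K (Set.range a) := by
  refine le_antisymm (span_mono (Set.image_subset_range _ _)) ?_
  rw [span_le]
  rintro _ ⟨i, rfl⟩
  by_cases hi : i = j
  · rw [hi]; exact h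
  · exact subset_span ⟨i, hi, rfl⟩

omit [Fintype J] [DecidableEq J] in
theorem split_span {a : J → W} {i j : J} (hij : j ≠ i) {x : W}
    (hx : x ∈ span K (a '' {k | k ≠ i})) :
    ∃ κ : K, x - κ • a j ∈ span K (a '' {k | k ≠ i ∧ k ≠ j}) := by
  have h1 : a '' {k | k ≠ i} = insert (a j) (a '' {k | k ≠ i ∧ k ≠ j}) := by
    ext y
    constructor
    · rintro ⟨k, hk, rfl⟩
      by_cases hkj : k = j
      · left; rw [hkj]
      · right; exact ⟨k, ⟨hk, hkj⟩, rfl⟩
    · rintro (rfl | ⟨k, hk, rfl⟩)
      · exact ⟨j, hij, rfl⟩
      · exact ⟨k, hk.1, rfl⟩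
  rw [h1, mem_span_insert] at hx
  obtain ⟨κ, z, hz, rfl⟩ := hx
  exact ⟨κ, by simpa using hz⟩

theorem rado [Infinite K] [FiniteDimensional K W] (U : J → Submodule K W)
    (h : ∀ s : Finset J, finrank K W ≤ finrank K (⨆ j ∈ s, U j : Submodule K W) +
      (Fintype.card J - s.card)) :
    ∃ a : J → W, (∀ j, a j ∈ U j) ∧ span K (Set.range a) = ⊤ := by
  classical
  let φ : (J → W) → ℕ := fun a =>
    finrank K (span K (Set.range a)) * (Fintype.card J + 1) + (nc K a).card
  obtain ⟨a, ha, hmax⟩ := exists_max (fun a : J → W => ∀ j, a j ∈ U j) ⟨0, fun j => (U j).zero_mem⟩ φ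
    (finrank K W * (Fintype.card J + 1) + Fintype.card J) (by
      intro a _
      exact add_le_add (Nat.mul_le_mul_right _ (finrank_le _)) (Finset.card_le_univ _))
  refine ⟨a, ha, ?_⟩
  have key : ∀ b : J → W, (∀ j, b j ∈ U j) →
      finrank K (span K (Set.range a)) ≤ finrank K (span K (Set.range b)) →
      finrank K (span K (Set.range b)) = finrank K (span K (Set.range a)) ∧
        (nc K b).card ≤ (nc K a).card := by
    intro b hb h1
    have h2 : finrank K (span K (Set.range b)) * (Fintype.card J + 1) + (nc K b).card ≤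
        finrank K (span K (Set.range a)) * (Fintype.card J + 1) + (nc K a).card := hmax b hb
    have h3 : (nc K a).card ≤ Fintype.card J := Finset.card_le_univ _
    rcases h1.eq_or_lt with h4 | h4
    · refine ⟨h4.symm, ?_⟩
      rw [← h4] at h2
      exact Nat.add_le_add_iff_left.1 h2
    · exfalso
      have h5 : (finrank K (span K (Set.range a)) + 1) * (Fintype.card J + 1) ≤
          finrank K (span K (Set.range b)) * (Fintype.card J + 1) := Nat.mul_le_mul_right _ h4
      rw [add_mul, one_mul] at h5
      omega
  -- the subspaces of the non-coloops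
  have main : ∀ j ∈ nc K a, U j ≤ span K (a '' (nc K a : Set J)) := by
    intro j hj u hu
    by_contra hu'
    have hjs := mem_nc.1 hj
    -- `u` is in the span of all vectors
    have hu1 : u ∈ span K (Set.range a) := by
      by_contra hu2
      have h1 : span K (Set.range a) < span K (Set.range (Function.update a j u)) := by
        rw [SetLike.lt_iff_le_and_exists]
        refine ⟨?_, u, subset_span ⟨j, Function.update_self _ _ _⟩, hu2⟩
        rw [← span_ne hjs, span_le]
        rintro _ ⟨i, hi, rfl⟩
        exact subset_span ⟨i, Function.update_of_ne hi _ _⟩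
      have h2 := finrank_lt_finrank_of_lt h1
      have h3 := (key (Function.update a j u) (fun i => by
        by_cases hi : i = j
        · subst hi; rw [Function.update_self]; exact hu
        · rw [Function.update_of_ne hi]; exact ha i) h2.le).1
      omega
    obtain ⟨cf, hcf⟩ := (mem_span_range_iff_exists_fun K).1 hu1
    obtain ⟨b₀, hb₀, hcb⟩ : ∃ b₀, b₀ ∉ nc K a ∧ cf b₀ ≠ 0 := by
      by_contra hcon
      push Not at hcon
      apply hu'
      rw [← hcf]
      refine sum_mem fun i _ => ?_
      by_cases hi : i ∈ nc K a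
      · exact smul_mem _ _ (subset_span ⟨i, hi, rfl⟩)
      · rw [hcon i hi, zero_smul]; exact zero_mem _
    have hb₀s : a b₀ ∉ span K (a '' {i | i ≠ b₀}) := fun h1 => hb₀ (mem_nc.2 h1)
    have hjb : j ≠ b₀ := fun e => hb₀ (e ▸ hj)
    -- the coefficients `μ i`
    have hμ : ∀ i : J, ∃ μ : K, i ∈ nc K a → i ≠ j →
        u - μ • a j ∈ span K (a '' {k | k ≠ i ∧ k ≠ j}) := by
      intro i
      by_cases hi : i ∈ nc K a ∧ i ≠ j
      · obtain ⟨μ, hμ⟩ := split_span (K := K) (a := a) (i := i) (j := j) (Ne.symm hi.2) (x := u) (by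
          rw [span_ne (mem_nc.1 hi.1)]; exact hu1)
        exact ⟨μ, fun _ _ => hμ⟩
      · exact ⟨0, fun h1 h2 => absurd ⟨h1, h2⟩ hi⟩
    choose μ hμ using hμ
    obtain ⟨t, ht⟩ := Infinite.exists_notMem_finset
      (insert (0 : K) (Finset.univ.image fun i => -(μ i)⁻¹))
    have ht0 : t ≠ 0 := fun e => ht (by rw [e]; exact Finset.mem_insert_self _ _)
    have htμ : ∀ i, 1 + t * μ i ≠ 0 := by
      intro i h1
      by_cases h2 : μ i = 0
      · rw [h2, mul_zero, add_zero] at h1
        exact one_ne_zero h1
      · apply ht
        refine Finset.mem_insert_of_mem (Finset.mem_image.2 ⟨i, Finset.mem_univ _, ?_⟩)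
        field_simp
        linear_combination -h1
    let a' := Function.update a j (a j + t • u)
    have ha'j : a' j = a j + t • u := Function.update_self _ _ _
    have ha'i : ∀ i, i ≠ j → a' i = a i := fun i hi => Function.update_of_ne hi _ _
    have ha'U : ∀ i, a' i ∈ U i := by
      intro i
      by_cases hi : i = j
      · rw [hi, ha'j]
        exact (U j).add_mem (ha j) ((U j).smul_mem _ hu)
      · rw [ha'i i hi]; exact ha i
    have hle : span K (Set.range a) ≤ span K (Set.range a') := by
      rw [← span_ne hjs, span_le]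
      rintro _ ⟨i, hi, rfl⟩
      exact subset_span ⟨i, ha'i i hi⟩
    have h1 := (key a' ha'U (finrank_mono hle)).2
    have h2 : insert b₀ (nc K a) ⊆ nc K a' := by
      intro i hi
      rw [mem_nc]
      rcases Finset.mem_insert.1 hi with rfl | hi
      · -- the coloop
        rw [ha'i i hjb.symm]
        have hQ : ∀ k, k ≠ j → k ≠ i → a k ∈ span K (a' '' {k | k ≠ i}) := fun k hk1 hk2 =>
          subset_span ⟨k, hk2, ha'i k hk1⟩
        have hjQ : a j ∈ span K (a' '' {k | k ≠ i}) := by
          obtain ⟨κ, hκ⟩ := split_span (K := K) (a := a) (i := j) (j := i) hjb.symm hjs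
          by_cases hκ0 : κ = 0
          · rw [hκ0, zero_smul, sub_zero] at hκ
            refine (span_le.2 ?_) hκ
            rintro _ ⟨k, hk, rfl⟩
            exact hQ k hk.1 hk.2
          · exfalso
            apply hb₀s
            have h3 : a j - κ • a i ∈ span K (a '' {k | k ≠ i}) := by
              refine (span_mono ?_) hκ
              rintro _ ⟨k, hk, rfl⟩
              exact ⟨k, hk.2, rfl⟩
            have h4 : a j ∈ span K (a '' {k | k ≠ i}) := subset_span ⟨j, hjb, rfl⟩
            have h5 : κ • a i ∈ span K (a '' {k | k ≠ i}) := by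
              have := sub_mem h4 h3
              simpa using this
            exact (smul_mem_iff _ hκ0).1 h5
        have huQ : u ∈ span K (a' '' {k | k ≠ i}) := by
          have h3 : a' j ∈ span K (a' '' {k | k ≠ i}) := subset_span ⟨j, hjb, rfl⟩
          rw [ha'j] at h3
          have h4 := sub_mem h3 hjQ
          rw [add_sub_cancel_left] at h4
          exact (smul_mem_iff _ ht0).1 h4
        have h3 : cf i • a i = u - ∑ k ∈ Finset.univ.erase i, cf k • a k := by
          rw [← hcf, ← Finset.add_sum_erase _ _ (Finset.mem_univ i)]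
          abel
        have h4 : cf i • a i ∈ span K (a' '' {k | k ≠ i}) := by
          rw [h3]
          refine sub_mem huQ (sum_mem fun k hk => smul_mem _ _ ?_)
          by_cases hkj : k = j
          · rw [hkj]; exact hjQ
          · exact hQ k hkj (Finset.ne_of_mem_erase hk)
        exact (smul_mem_iff _ hcb).1 h4
      · by_cases hij : i = j
        · subst hij
          rw [ha'j]
          have h3 : a' '' {k | k ≠ i} = a '' {k | k ≠ i} := Set.image_congr fun k hk => ha'i k hk
          rw [h3]
          exact add_mem hjs (smul_mem _ _ (by rw [span_ne hjs]; exact hu1))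
        · rw [ha'i i hij]
          have h3 := hμ i hi hij
          obtain ⟨κ, hκ⟩ := split_span (K := K) (a := a) (i := i) (j := j) (Ne.symm hij)
            (mem_nc.1 hi)
          have h4 : span K (a '' {k | k ≠ i ∧ k ≠ j}) ≤ span K (a' '' {k | k ≠ i}) := by
            rw [span_le]
            rintro _ ⟨k, hk, rfl⟩
            exact subset_span ⟨k, hk.1, ha'i k hk.2⟩
          have h5 : a' j ∈ span K (a' '' {k | k ≠ i}) := subset_span ⟨j, Ne.symm hij, rfl⟩
          rw [ha'j] at h5
          have h6 : (1 + t * μ i) • a j ∈ span K (a' '' {k | k ≠ i}) := by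
            have h7 : (1 + t * μ i) • a j = (a j + t • u) - t • (u - μ i • a j) := by
              rw [add_smul, one_smul, smul_sub, smul_smul]
              abel
            rw [h7]
            exact sub_mem h5 (smul_mem _ _ (h4 h3))
          have h7 := (smul_mem_iff _ (htμ i)).1 h6
          have h8 := h4 hκ
          have h9 : a i = (a i - κ • a j) + κ • a j := by abel
          rw [h9]
          exact add_mem h8 (smul_mem _ _ h7)
    have h3 := (Finset.card_le_card h2).trans h1
    rw [Finset.card_insert_of_notMem hb₀] at h3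
    omega
  -- count
  have hcount : ∀ T : Finset J, Disjoint T (nc K a) →
      finrank K (span K (a '' (nc K a : Set J))) + T.card ≤
        finrank K (span K (a '' ((nc K a ∪ T : Finset J) : Set J))) := by
    intro T
    induction T using Finset.induction_on with
    | empty => intro _; rw [Finset.union_empty, Finset.card_empty, add_zero]
    | insert b T hbT ih =>
      intro hd
      rw [Finset.disjoint_insert_left] at hd
      have h1 := ih hd.2
      rw [Finset.card_insert_of_notMem hbT]
      have h2 : span K (a '' ((nc K a ∪ T : Finset J) : Set J)) <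
          span K (a '' ((nc K a ∪ insert b T : Finset J) : Set J)) := by
        rw [SetLike.lt_iff_le_and_exists]
        refine ⟨span_mono (Set.image_mono ?_), a b, subset_span ⟨b, by simp, rfl⟩, ?_⟩
        · intro x hx
          simp only [Finset.coe_union, Finset.coe_insert, Set.mem_union, Set.mem_insert_iff] at hx ⊢
          tauto
        · intro h3
          apply hd.1
          rw [mem_nc]
          refine (span_mono (Set.image_mono ?_)) h3
          intro x hx
          change x ≠ b
          rintro rfl
          rcases Finset.mem_union.1 (Finset.mem_coe.1 hx) with h4 | h4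
          · exact hd.1 h4
          · exact hbT h4
      have h3 := finrank_lt_finrank_of_lt h2
      omega
  have h1 := hcount (nc K a)ᶜ (Finset.disjoint_left.2 fun x hx hx' => (Finset.mem_compl.1 hx) hx')
  have h2 := h (nc K a)
  have h3 : finrank K (⨆ j ∈ nc K a, U j : Submodule K W) ≤
      finrank K (span K (a '' (nc K a : Set J))) :=
    finrank_mono (iSup₂_le main)
  rw [Finset.card_compl] at h1
  have h4 : finrank K (span K (a '' ((nc K a ∪ (nc K a)ᶜ : Finset J) : Set J))) ≤ finrank K W :=
    finrank_le _
  have h5 : finrank K (span K (a '' ((nc K a ∪ (nc K a)ᶜ : Finset J) : Set J))) = finrank K W := by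
    omega
  have h6 := eq_top_of_finrank_eq h5
  rw [Finset.union_compl] at h6
  simpa using h6

end H90.TF
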