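import Pool.Agent.H90.TF.Cpt
import Pool.Agent.H90.TF.Alg
import Pool.Agent.H90.TF.Rado
import Pool.Agent.H90.TF.Lin

/-!
# Independent differences of exponents

Let the subscheme `X` of the toric variety meet the orbit of the cone `τ`, but not the orbits of the
larger cones. Then the differences of the exponents of the equations, restricted to the closure of the
orbit, have a transversal which spans the space of the characters of the orbit.
-/

set_option autoImplicit false

namespace H90.TF

open MvPolynomial Module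

variable {ι : Type} [Fintype ι] {N : ℕ} {u : ι → Fin N → ℤ} {S : Set (Set ι)}

/-- the linear forms given by the differences of the exponents of `f` which are zero on `τ` -/
def diffs (u : ι → Fin N → ℤ) (f : MvPolynomial ι ℂ) (τ : Set ι) : Set (Fin N → ℤ) :=
  {m | (∀ l ∈ τ, pr u m l = 0) ∧ ∃ α ∈ f.support, ∃ α' ∈ f.support, (∀ l ∈ τ, α l = 0) ∧
    (∀ l ∈ τ, α' l = 0) ∧ ∀ i, (α' i : ℤ) = α i + pr u m i}

/-- integral vectors as complex vectors -/
def cst (m : Fin N → ℤ) : Fin N → ℂ := fun k => (m k : ℂ)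

omit [Fintype ι] in
theorem pr_cst (m : Fin N → ℤ) (i : ι) : pr u (cst m) i = ((pr u m i : ℤ) : ℂ) := by
  simp [pr, cst]

/-- the linear forms which are zero on `τ` -/
def perp (u : ι → Fin N → ℤ) (τ : Set ι) : Submodule ℂ (Fin N → ℂ) where
  carrier := {x | ∀ l ∈ τ, pr u x l = 0}
  add_mem' := fun {x y} hx hy l hl => by rw [pr_add, hx l hl, hy l hl, add_zero]
  zero_mem' := fun l _ => by simp [pr]
  smul_mem' := fun c x hx l hl => by rw [pr_smul, hx l hl, mul_zero]

omit [Fintype ι] in
theorem mem_perp {x : Fin N → ℂ} {τ : Set ι} : x ∈ perp u τ ↔ ∀ l ∈ τ, pr u x l = 0 := Iff.rfl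

omit [Fintype ι] in
theorem span_diffs_le (f : MvPolynomial ι ℂ) (τ : Set ι) :
    Submodule.span ℂ (cst '' diffs u f τ) ≤ perp u τ := by
  rw [Submodule.span_le]
  rintro _ ⟨m, hm, rfl⟩ l hl
  rw [pr_cst, hm.1 l hl, Int.cast_zero]

/-- the characters are multiplicative -/
theorem ch_add {τ : Set ι} {y : ι → ℂ} (hy : {i | y i = 0} = τ) {m m' : Fin N → ℤ}
    (hm : ∀ l ∈ τ, pr u m l = 0) (hm' : ∀ l ∈ τ, pr u m' l = 0) :
    ch u (m + m') y = ch u m y * ch u m' y := by
  rw [ch, ch, ch, ← Finset.prod_mul_distrib]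
  refine Finset.prod_congr rfl fun i _ => ?_
  rw [pr_add]
  by_cases hi : i ∈ τ
  · rw [hm i hi, hm' i hi]; simp
  · exact zpow_add₀ (fun h => hi (by rw [← hy]; exact h)) _ _

theorem ch_neg {τ : Set ι} {y : ι → ℂ} (hy : {i | y i = 0} = τ) {m : Fin N → ℤ}
    (hm : ∀ l ∈ τ, pr u m l = 0) : ch u (-m) y = (ch u m y)⁻¹ := by
  have h1 := ch_add (u := u) hy hm (m' := -m) (by
    intro l hl
    have h2 := pr_smul (u := u) (-1 : ℤ) m l
    rw [neg_one_smul] at h2
    rw [h2, hm l hl, mul_zero])
  have h2 : ch u (m + -m) y = 1 := by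
    rw [add_neg_cancel]
    simp [ch, pr]
  rw [h2] at h1
  exact eq_inv_of_mul_eq_one_right h1.symm

theorem ch_zero (y : ι → ℂ) : ch u 0 y = 1 := by simp [ch, pr]

/-- the monomials -/
theorem prod_pow_eq {τ : Set ι} {y : ι → ℂ} (hy : {i | y i = 0} = τ) {m : Fin N → ℤ}
    (hm : ∀ l ∈ τ, pr u m l = 0) {α α' : ι → ℕ} (h : ∀ i, (α' i : ℤ) = α i + pr u m i) :
    ∏ i, y i ^ α' i = (∏ i, y i ^ α i) * ch u m y := by
  rw [ch, ← Finset.prod_mul_distrib]
  refine Finset.prod_congr rfl fun i _ => ?_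
  by_cases hi : i ∈ τ
  · have h1 : α' i = α i := by
      have := h i
      rw [hm i hi, add_zero] at this
      exact_mod_cast this
    rw [hm i hi, h1, zpow_zero, mul_one]
  · have hyi : y i ≠ 0 := fun h => hi (by rw [← hy]; exact h)
    rw [← zpow_natCast, h i, zpow_add₀ hyi, zpow_natCast]

theorem eval_eq_zero_of_ch {f : MvPolynomial ι ℂ} {D : ι → ℤ} (hf : IsHomog u f D) {τ : Set ι}
    {y z : ι → ℂ} (hy : {i | y i = 0} = τ) (hz : {i | z i = 0} = τ)
    (h : ∀ m ∈ diffs u f τ, ch u m y = ch u m z) (hfz : eval z f = 0) : eval y f = 0 := by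
  classical
  have hzero : ∀ {w : ι → ℂ}, {i | w i = 0} = τ → ∀ α : ι →₀ ℕ, ¬ (∀ l ∈ τ, α l = 0) →
      ∏ i, w i ^ α i = 0 := by
    intro w hw α hα
    push Not at hα
    obtain ⟨l, hl, hl'⟩ := hα
    have h1 : w l = 0 := by
      have : l ∈ {i | w i = 0} := by rw [hw]; exact hl
      exact this
    refine Finset.prod_eq_zero (Finset.mem_univ l) ?_
    rw [h1, zero_pow hl']
  by_cases hex : ∃ α ∈ f.support, ∀ l ∈ τ, α l = 0
  · obtain ⟨α₀, hα₀, h0⟩ := hex
    have hz0 : ∏ i, z i ^ α₀ i ≠ 0 := by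
      rw [Finset.prod_ne_zero_iff]
      intro i _
      by_cases hi : i ∈ τ
      · rw [h0 i hi, pow_zero]; exact one_ne_zero
      · exact pow_ne_zero _ fun h => hi (by rw [← hz]; exact h)
    have key : ∀ α ∈ f.support, ∏ i, y i ^ α i =
        ((∏ i, y i ^ α₀ i) / ∏ i, z i ^ α₀ i) * ∏ i, z i ^ α i := by
      intro α hα
      by_cases hατ : ∀ l ∈ τ, α l = 0
      · obtain ⟨m, hm⟩ := hf α hα
        obtain ⟨m₀, hm₀⟩ := hf α₀ hα₀
        replace hm : ∀ i, (α i : ℤ) = D i + pr u m i := hm
        replace hm₀ : ∀ i, (α₀ i : ℤ) = D i + pr u m₀ i := hm₀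
        have h1 : ∀ i, (α i : ℤ) = α₀ i + pr u (m - m₀) i := fun i => by
          rw [pr_sub, hm, hm₀]; ring
        have h2 : ∀ l ∈ τ, pr u (m - m₀) l = 0 := fun l hl => by
          have := h1 l
          rw [hατ l hl, h0 l hl] at this
          simpa using this.symm
        have h3 := h (m - m₀) ⟨h2, α₀, hα₀, α, hα, h0, hατ, h1⟩
        rw [prod_pow_eq hy h2 h1, prod_pow_eq hz h2 h1, h3]
        field_simp
      · rw [hzero hy α hατ, hzero hz α hατ, mul_zero]
    rw [eval_eq']
    have h1 : ∑ α ∈ f.support, coeff α f * ∏ i, y i ^ α i =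
        ((∏ i, y i ^ α₀ i) / ∏ i, z i ^ α₀ i) * ∑ α ∈ f.support, coeff α f * ∏ i, z i ^ α i := by
      rw [Finset.mul_sum]
      refine Finset.sum_congr rfl fun α hα => ?_
      rw [key α hα]
      ring
    rw [h1, ← eval_eq', hfz, mul_zero]
  · rw [eval_eq']
    refine Finset.sum_eq_zero fun α hα => ?_
    rw [hzero hy α fun h => hex ⟨α, hα, h⟩, mul_zero]

/-- the binomial equation `ch m y = c` -/
noncomputable def binom (u : ι → Fin N → ℤ) (m : Fin N → ℤ) (c : ℂ) : MvPolynomial ι ℂ :=
  ∏ i, X i ^ (pr u m i).toNat - C c * ∏ i, X i ^ (-pr u m i).toNat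

theorem eval_binom {τ : Set ι} {y : ι → ℂ} (hy : {i | y i = 0} = τ) {m : Fin N → ℤ}
    (hm : ∀ l ∈ τ, pr u m l = 0) (c : ℂ) : eval y (binom u m c) = 0 ↔ ch u m y = c := by
  have h1 : ∏ i, y i ^ (pr u m i).toNat = (∏ i, y i ^ (-pr u m i).toNat) * ch u m y :=
    prod_pow_eq hy hm fun i => by omega
  have h2 : ∏ i, y i ^ (-pr u m i).toNat ≠ 0 := by
    rw [Finset.prod_ne_zero_iff]
    intro i _
    by_cases hi : i ∈ τ
    · rw [hm i hi]; simp
    · exact pow_ne_zero _ fun h => hi (by rw [← hy]; exact h)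
  have h3 : eval y (binom u m c) = (∏ i, y i ^ (-pr u m i).toNat) * (ch u m y - c) := by
    simp only [binom, map_sub, map_mul, map_prod, map_pow, eval_X, eval_C, h1]
    ring
  rw [h3, mul_eq_zero, or_iff_right h2, sub_eq_zero]

theorem le_max_of_pow_le {x B : ℝ} {D : ℕ} (hD : 1 ≤ D) (hx : 0 ≤ x) (h : x ^ D ≤ B) :
    x ≤ max 1 B := by
  rcases le_total x 1 with h1 | h1
  · exact h1.trans (le_max_left _ _)
  · refine le_trans ?_ (le_max_right _ _)
    calc x = x ^ 1 := (pow_one x).symm
      _ ≤ x ^ D := pow_le_pow_right₀ h1 hD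
      _ ≤ B := h

/-- the dimension of the span of the differences of some of the equations -/
theorem count (hS : IsFan u S) {c : ℕ} {f : Fin c → MvPolynomial ι ℂ} {D : Fin c → ι → ℤ}
    (hf : ∀ j, IsHomog u (f j) (D j)) {τ : Set ι} (hτ : τ ∈ S)
    (hmax : ∀ y, IsPoint S f y → τ ⊆ {i | y i = 0} → {i | y i = 0} = τ) {z : ι → ℂ}
    (hz : IsPoint S f z) (hzτ : {i | z i = 0} = τ) (s : Finset (Fin c)) :
    finrank ℂ (perp u τ) ≤
      finrank ℂ (⨆ j ∈ s, Submodule.span ℂ (cst '' diffs u (f j) τ) : Submodule ℂ (Fin N → ℂ)) +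
        (c - s.card) := by
  classical
  obtain ⟨σ, hσ, hτσ, hσc, ⟨E, mm, hE, hmm⟩, hσ0⟩ := hS.basis hτ
  set T : Finset ι := Finset.univ.filter fun i => i ∈ σ ∧ i ∉ τ with hT
  have hmemT : ∀ i, i ∈ T ↔ i ∈ σ ∧ i ∉ τ := fun i => by simp [hT]
  -- the dimension of `perp`
  have hdim : finrank ℂ (perp u τ) ≤ T.card := by
    let L : perp u τ →ₗ[ℂ] (T → ℂ) :=
      { toFun := fun x i => pr u (x : Fin N → ℂ) i
        map_add' := fun x y => by funext i; exact pr_add _ _ _
        map_smul' := fun c x => by funext i; exact pr_smul _ _ _ }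
    have hL : Function.Injective L := by
      rw [← LinearMap.ker_eq_bot, LinearMap.ker_eq_bot']
      intro x hx
      apply Subtype.ext
      apply hσ0
      intro i hi
      by_cases hiτ : i ∈ τ
      · exact x.2 i hiτ
      · exact congrFun hx ⟨i, (hmemT i).2 ⟨hi, hiτ⟩⟩
    have := LinearMap.finrank_le_finrank_of_injective hL
    simpa using this
  -- the lattice of the differences
  let Λ : Submodule ℤ (Fin N → ℤ) := Submodule.span ℤ (⋃ j ∈ s, diffs u (f j) τ)
  let b := Module.finBasis ℤ Λ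
  set r := finrank ℤ Λ with hr
  let v : Fin r → Fin N → ℤ := fun i => (b i : Fin N → ℤ)
  have hvli : LinearIndependent ℤ v := b.linearIndependent.map' Λ.subtype Λ.ker_subtype
  have hΛ0 : ∀ m ∈ Λ, ∀ l ∈ τ, pr u m l = 0 := by
    intro m hm l hl
    induction hm using Submodule.span_induction with
    | mem x hx =>
      obtain ⟨j, hj⟩ := Set.mem_iUnion.1 hx
      obtain ⟨_, hx'⟩ := Set.mem_iUnion.1 hj
      exact hx'.1 l hl
    | zero => simp [pr]
    | add x y _ _ hx hy => rw [pr_add, hx, hy, add_zero]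
    | smul a x _ hx => rw [pr_smul, hx, mul_zero]
  have hvΛ : ∀ i, v i ∈ Λ := fun i => (b i).2
  have hrle : r ≤ finrank ℂ (⨆ j ∈ s, Submodule.span ℂ (cst '' diffs u (f j) τ) :
      Submodule ℂ (Fin N → ℂ)) := by
    have h1 : Submodule.span ℂ (Set.range fun i => cst (v i)) ≤
        (⨆ j ∈ s, Submodule.span ℂ (cst '' diffs u (f j) τ) : Submodule ℂ (Fin N → ℂ)) := by
      rw [Submodule.span_le]
      rintro _ ⟨i, rfl⟩
      have h2 : ∀ m ∈ Λ, cst m ∈
          (⨆ j ∈ s, Submodule.span ℂ (cst '' diffs u (f j) τ) : Submodule ℂ (Fin N → ℂ)) := by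
        intro m hm
        induction hm using Submodule.span_induction with
        | mem x hx =>
          simp only [Set.mem_iUnion] at hx
          obtain ⟨j, hj, hx⟩ := hx
          exact Submodule.mem_iSup_of_mem j (Submodule.mem_iSup_of_mem hj
            (Submodule.subset_span ⟨x, hx, rfl⟩))
        | zero =>
          have : cst (0 : Fin N → ℤ) = 0 := by funext k; simp [cst]
          rw [this]; exact Submodule.zero_mem _
        | add x y _ _ hx hy =>
          have : cst (x + y) = cst x + cst y := by funext k; simp [cst]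
          rw [this]; exact Submodule.add_mem _ hx hy
        | smul a x _ hx =>
          have : cst (a • x) = (a : ℂ) • cst x := by funext k; simp [cst]
          rw [this]; exact Submodule.smul_mem _ _ hx
      exact h2 _ (hvΛ i)
    have h2 : finrank ℂ (Submodule.span ℂ (Set.range fun i => cst (v i))) = r := by
      have h3 := finrank_span_eq_card (cast_li hvli)
      rw [Fintype.card_fin] at h3
      exact h3
    rw [← h2]
    exact Submodule.finrank_mono h1
  -- the equations
  let G : Finset (MvPolynomial ι ℂ) := ((Finset.univ \ T).image fun i => X i - C (z i)) ∪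
    ((Finset.univ.image fun i => binom u (v i) (ch u (v i) z)) ∪ (Finset.univ \ s).image f)
  have hGcard : G.card ≤ (Fintype.card ι - T.card) + (r + (c - s.card)) := by
    refine (Finset.card_union_le _ _).trans (add_le_add ?_ ((Finset.card_union_le _ _).trans
      (add_le_add ?_ ?_)))
    · refine Finset.card_image_le.trans ?_
      rw [Finset.card_sdiff_of_subset (Finset.subset_univ _), Finset.card_univ]
    · refine Finset.card_image_le.trans ?_
      rw [Finset.card_univ, Fintype.card_fin]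
    · refine Finset.card_image_le.trans ?_
      rw [Finset.card_sdiff_of_subset (Finset.subset_univ _), Finset.card_univ, Fintype.card_fin]
  have hzT : ∀ i ∈ T, z i ≠ 0 := fun i hi h => ((hmemT i).1 hi).2 (by rw [← hzτ]; exact h)
  have hGz : ∀ g ∈ (G : Set (MvPolynomial ι ℂ)), eval z g = 0 := by
    intro g hg
    simp only [G, Finset.coe_union, Set.mem_union, Finset.mem_coe, Finset.mem_image] at hg
    rcases hg with ⟨i, _, rfl⟩ | ⟨i, _, rfl⟩ | ⟨j, _, rfl⟩
    · simp
    · exact (eval_binom hzτ (hΛ0 _ (hvΛ i)) _).2 rfl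
    · exact hz.2 j
  -- the bounds
  have hbd : ∀ i : ι, ∃ B : ℝ, i ∈ T → ∀ y, IsPoint S f y → {i | y i = 0} = τ →
      ‖ch u (mm i) y‖ ≤ B := by
    intro i
    by_cases hi : i ∈ T
    · have hiσ := ((hmemT i).1 hi).1
      obtain ⟨B, hB⟩ := ch_bounded hS hf hτ hmax (mm i) (fun l hl =>
        (hmm i hiσ).2 l (hτσ hl) (fun e => ((hmemT i).1 hi).2 (e ▸ hl)))
      exact ⟨B, fun _ => hB⟩
    · exact ⟨0, fun h => absurd h hi⟩
  choose B hB using hbd
  let κ : ι → ℂ := fun i => ∏ i' ∈ Finset.univ.erase i, z i' ^ pr u (mm i) i'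
  let R : ι → ℝ := fun i => max (‖z i‖) (max 1 (B i / ‖κ i‖))
  obtain ⟨R₀, hR₀⟩ := (Set.finite_range R).bddAbove
  have hmain := card_le_of_bounded z T hzT (G := (G : Set (MvPolynomial ι ℂ)))
    G.finite_toSet hGz R₀ (by
    intro y hyT hyG i
    have hGX : ∀ i, i ∉ T → y i = z i := by
      intro i hi
      have h1 := hyG (X i - C (z i)) (by
        simp only [G, Finset.coe_union, Set.mem_union, Finset.mem_coe, Finset.mem_image]
        exact Or.inl ⟨i, by simp [hi], rfl⟩)
      simpa [sub_eq_zero] using h1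
    have hyτ : {i | y i = 0} = τ := by
      ext i
      constructor
      · intro h
        by_contra hi
        by_cases hiT : i ∈ T
        · exact hyT i hiT h
        · apply hi
          rw [← hzτ]
          change z i = 0
          rw [← hGX i hiT]
          exact h
      · intro hi
        have h1 : i ∉ T := fun h => ((hmemT i).1 h).2 hi
        change y i = 0
        rw [hGX i h1]
        have : i ∈ {i | z i = 0} := by rw [hzτ]; exact hi
        exact this
    have hchv : ∀ i, ch u (v i) y = ch u (v i) z := by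
      intro i
      have h1 := hyG (binom u (v i) (ch u (v i) z)) (by
        simp only [G, Finset.coe_union, Set.mem_union, Finset.mem_coe, Finset.mem_image]
        exact Or.inr (Or.inl ⟨i, Finset.mem_univ _, rfl⟩))
      exact (eval_binom hyτ (hΛ0 _ (hvΛ i)) _).1 h1
    have hchΛ : ∀ m ∈ Λ, ch u m y = ch u m z := by
      intro m hm
      let H : AddSubgroup (Fin N → ℤ) :=
        { carrier := {m | (∀ l ∈ τ, pr u m l = 0) ∧ ch u m y = ch u m z}
          add_mem' := fun {a b} ha hb => ⟨fun l hl => by rw [pr_add, ha.1 l hl, hb.1 l hl, add_zero],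
            by rw [ch_add hyτ ha.1 hb.1, ch_add hzτ ha.1 hb.1, ha.2, hb.2]⟩
          zero_mem' := ⟨fun l _ => by simp [pr], by rw [ch_zero, ch_zero]⟩
          neg_mem' := fun {a} ha => ⟨fun l hl => by
              have h2 := pr_smul (u := u) (-1 : ℤ) a l
              rw [neg_one_smul] at h2
              rw [h2, ha.1 l hl, mul_zero],
            by rw [ch_neg hyτ ha.1, ch_neg hzτ ha.1, ha.2]⟩ }
      have h1 : m ∈ H := by
        have h2 : m = ∑ i, b.repr ⟨m, hm⟩ i • v i := by
          have h3 := congrArg Subtype.val (b.sum_repr ⟨m, hm⟩)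
          exact h3.symm.trans (by rw [Submodule.coe_sum]; rfl)
        rw [h2]
        exact H.sum_mem fun i _ => H.zsmul_mem ⟨hΛ0 _ (hvΛ i), hchv i⟩ _
      exact h1.2
    have hyP : IsPoint S f y := by
      refine ⟨by rw [hyτ]; exact hτ, fun j => ?_⟩
      by_cases hj : j ∈ s
      · exact eval_eq_zero_of_ch (hf j) hyτ hzτ (fun m hm => hchΛ m (Submodule.subset_span (by
          simp only [Set.mem_iUnion]
          exact ⟨j, hj, hm⟩))) (hz.2 j)
      · exact hyG (f j) (by
          simp only [G, Finset.coe_union, Set.mem_union, Finset.mem_coe, Finset.mem_image]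
          exact Or.inr (Or.inr ⟨j, by simp [hj], rfl⟩))
    refine le_trans ?_ (hR₀ ⟨i, rfl⟩)
    by_cases hi : i ∈ T
    · have h1 := hB i hi y hyP hyτ
      have hiσ := ((hmemT i).1 hi).1
      have h2 : ch u (mm i) y = y i ^ E * κ i := by
        rw [ch, ← Finset.mul_prod_erase _ _ (Finset.mem_univ i), (hmm i hiσ).1, zpow_natCast]
        congr 1
        refine Finset.prod_congr rfl fun i' hi' => ?_
        by_cases h3 : i' ∈ σ
        · rw [(hmm i hiσ).2 i' h3 (Finset.ne_of_mem_erase hi'), zpow_zero, zpow_zero]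
        · rw [hGX i' fun h => h3 ((hmemT i').1 h).1]
      have hκ : κ i ≠ 0 := by
        rw [Finset.prod_ne_zero_iff]
        intro i' hi'
        by_cases h3 : i' ∈ σ
        · rw [(hmm i hiσ).2 i' h3 (Finset.ne_of_mem_erase hi'), zpow_zero]
          exact one_ne_zero
        · exact zpow_ne_zero _ fun h4 => h3 (hτσ (by rw [← hzτ]; exact h4))
      rw [h2, norm_mul, norm_pow] at h1
      have h3 : ‖y i‖ ^ E ≤ B i / ‖κ i‖ := by
        rw [le_div_iff₀ (norm_pos_iff.2 hκ)]
        exact h1
      exact (le_max_of_pow_le hE (norm_nonneg _) h3).trans (le_max_right _ _)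
    · rw [hGX i hi]
      exact le_max_left _ _)
  rw [Set.ncard_coe_finset] at hmain
  have hTle : T.card ≤ Fintype.card ι := Finset.card_le_univ _
  omega

/-- a transversal of the differences which spans the space of the characters of the orbit -/
theorem exists_span (hS : IsFan u S) {c : ℕ} {f : Fin c → MvPolynomial ι ℂ} {D : Fin c → ι → ℤ}
    (hf : ∀ j, IsHomog u (f j) (D j)) {τ : Set ι} (hτ : τ ∈ S)
    (hmax : ∀ y, IsPoint S f y → τ ⊆ {i | y i = 0} → {i | y i = 0} = τ) {z : ι → ℂ}
    (hz : IsPoint S f z) (hzτ : {i | z i = 0} = τ) :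
    ∃ a : Fin c → Fin N → ℂ, (∀ j, a j ∈ Submodule.span ℂ (cst '' diffs u (f j) τ)) ∧
      Submodule.span ℂ (Set.range a) = perp u τ := by
  let U : Fin c → Submodule ℂ (perp u τ) := fun j =>
    (Submodule.span ℂ (cst '' diffs u (f j) τ)).comap (perp u τ).subtype
  have hU : ∀ j, (U j).map (perp u τ).subtype = Submodule.span ℂ (cst '' diffs u (f j) τ) := by
    intro j
    rw [Submodule.map_comap_subtype, inf_eq_right]
    exact span_diffs_le _ _
  obtain ⟨a, ha, hsp⟩ := rado U (by
    intro s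
    have h1 := count hS hf hτ hmax hz hzτ s
    have h2 : finrank ℂ (⨆ j ∈ s, U j : Submodule ℂ (perp u τ)) =
        finrank ℂ (⨆ j ∈ s, Submodule.span ℂ (cst '' diffs u (f j) τ) :
          Submodule ℂ (Fin N → ℂ)) := by
      have h3 : (⨆ j ∈ s, U j : Submodule ℂ (perp u τ)).map (perp u τ).subtype =
          ⨆ j ∈ s, Submodule.span ℂ (cst '' diffs u (f j) τ) := by
        rw [Submodule.map_iSup]
        refine iSup_congr fun j => ?_
        rw [Submodule.map_iSup]
        exact iSup_congr fun _ => hU j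
      rw [← h3]
      exact (Submodule.equivMapOfInjective (perp u τ).subtype (perp u τ).injective_subtype
        (⨆ j ∈ s, U j)).finrank_eq
    rw [h2, Fintype.card_fin]
    exact h1)
  refine ⟨fun j => a j, fun j => ha j, ?_⟩
  have h1 : (Set.range fun j => (a j : Fin N → ℂ)) = (perp u τ).subtype '' Set.range a := by
    rw [← Set.range_comp]
    rfl
  rw [h1, ← Submodule.map_span, hsp, Submodule.map_subtype_top]

end H90.TF
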