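import Pool.Agent.H90.TF.Defs

/-!
# Complete simplicial fans
-/

set_option autoImplicit false

namespace H90.TF

open MvPolynomial

variable {ι : Type} [Fintype ι] {N : ℕ} {u : ι → Fin N → ℤ} {S : Set (Set ι)}

omit [Fintype ι] in
theorem pr_add {K : Type} [CommRing K] (m m' : Fin N → K) (i : ι) :
    pr u (m + m') i = pr u m i + pr u m' i := by
  simp [pr, add_mul, Finset.sum_add_distrib]

omit [Fintype ι] in
theorem pr_smul {K : Type} [CommRing K] (c : K) (m : Fin N → K) (i : ι) :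
    pr u (c • m) i = c * pr u m i := by
  simp [pr, Finset.mul_sum, mul_assoc]

omit [Fintype ι] in
theorem pr_sub {K : Type} [CommRing K] (m m' : Fin N → K) (i : ι) :
    pr u (m - m') i = pr u m i - pr u m' i := by
  simp [pr, sub_mul, Finset.sum_sub_distrib]

omit [Fintype ι] in
theorem pr_sum {K : Type} [CommRing K] {J : Type*} (s : Finset J) (m : J → Fin N → K) (i : ι) :
    pr u (∑ j ∈ s, m j) i = ∑ j ∈ s, pr u (m j) i := by
  simp only [pr, Finset.sum_apply, Finset.sum_mul]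
  rw [Finset.sum_comm]

/-- the pairing of a linear form with a combination of rays -/
theorem sum_pr {K : Type} [CommRing K] (x : ι → K) (m : Fin N → K) :
    ∑ i, x i * pr u m i = ∑ k, m k * ∑ i, x i * (u i k : K) := by
  simp only [pr, Finset.mul_sum]
  rw [Finset.sum_comm]
  refine Finset.sum_congr rfl fun k _ => Finset.sum_congr rfl fun i _ => by ring

theorem sum_pr_zero {K : Type} [CommRing K] {x : ι → K} (hx : ∀ k, ∑ i, x i * (u i k : K) = 0)
    (m : Fin N → K) : ∑ i, x i * pr u m i = 0 := by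
  rw [sum_pr]
  simp [hx]

/-- the rays of a cone are linearly independent -/
theorem IsFan.indep (hS : IsFan u S) {σ : Set ι} (hσ : σ ∈ S) {x : ι → ℝ}
    (hx : ∀ i, i ∉ σ → x i = 0) (h0 : ∀ k, ∑ i, x i * (u i k : ℝ) = 0) : ∀ i, x i = 0 := by
  have h1 := hS.rep fun k => ∑ i, max (x i) 0 * (u i k : ℝ)
  have h2 : (fun i => max (x i) 0) = fun i => max (-(x i)) 0 := by
    apply h1.unique
    · refine ⟨fun i => le_max_right _ _, hS.face σ hσ _ ?_, fun k => rfl⟩
      intro i hi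
      by_contra hi'
      apply hi
      rw [hx i hi', max_self]
    · refine ⟨fun i => le_max_right _ _, hS.face σ hσ _ ?_, fun k => ?_⟩
      · intro i hi
        by_contra hi'
        apply hi
        rw [hx i hi', neg_zero, max_self]
      · have h3 : ∀ i, max (x i) 0 = x i + max (-(x i)) 0 := fun i => by
          rcases le_total (x i) 0 with h | h
          · rw [max_eq_right h, max_eq_left (neg_nonneg.2 h)]; ring
          · rw [max_eq_left h, max_eq_right (neg_nonpos.2 h)]; ring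
        simp only [h3, add_mul, Finset.sum_add_distrib, h0 k, zero_add]
  intro i
  have h3 : max (x i) 0 = max (-(x i)) 0 := congrFun h2 i
  rcases le_total (x i) 0 with h | h
  · rw [max_eq_right h, max_eq_left (neg_nonneg.2 h)] at h3
    linarith
  · rw [max_eq_left h, max_eq_right (neg_nonpos.2 h)] at h3
    exact h3

/-- the star of a cone is complete -/
theorem IsFan.star (hS : IsFan u S) {τ : Set ι} (hτ : τ ∈ S) (w : Fin N → ℝ) :
    ∃ σ ∈ S, τ ⊆ σ ∧ ∃ x : ι → ℝ, (∀ i, i ∉ τ → 0 ≤ x i) ∧ (∀ i, i ∉ σ → x i = 0) ∧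
      ∀ k, ∑ i, x i * (u i k : ℝ) = w k := by
  classical
  let e : ι → ℝ := fun i => if i ∈ τ then 1 else 0
  have he0 : ∀ i, 0 ≤ e i := fun i => by simp only [e]; split_ifs <;> norm_num
  have hsum : ∀ K : ℕ, ∃ a : ι → ℝ, (∀ i, 0 ≤ a i) ∧ {i | a i ≠ 0} ∈ S ∧
      ∀ k, ∑ i, a i * (u i k : ℝ) = w k + K * ∑ i, e i * (u i k : ℝ) := fun K =>
    (hS.rep fun k => w k + K * ∑ i, e i * (u i k : ℝ)).exists
  choose a ha0 haS hau using hsum
  obtain ⟨σ, hσ⟩ := Finite.exists_infinite_fiber fun K => {i | a K i ≠ 0}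
  have hinf : ((fun K => {i | a K i ≠ 0}) ⁻¹' {σ}).Infinite := Set.infinite_coe_iff.1 hσ
  obtain ⟨K₁, hK₁⟩ := hinf.nonempty
  obtain ⟨K₂, hK₂, hlt⟩ := hinf.exists_gt K₁
  have hσS : σ ∈ S := by
    have h1 : {i | a K₁ i ≠ 0} = σ := hK₁
    rw [← h1]; exact haS K₁
  have hoff : ∀ K, K ∈ ((fun K => {i | a K i ≠ 0}) ⁻¹' {σ}) → ∀ i, i ∉ σ → a K i = 0 := by
    intro K hK i hi
    have h1 : {i | a K i ≠ 0} = σ := hK
    by_contra h2
    exact hi (h1 ▸ h2)
  have hd0 : (0 : ℝ) < (K₂ : ℝ) - K₁ := by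
    have : (K₁ : ℝ) < K₂ := by exact_mod_cast hlt
    linarith
  let d : ι → ℝ := fun i => (a K₂ i - a K₁ i) / (K₂ - K₁)
  have hdoff : ∀ i, i ∉ σ → d i = 0 := fun i hi => by
    simp only [d, hoff _ hK₂ i hi, hoff _ hK₁ i hi, sub_zero, zero_div]
  have hdu : ∀ k, ∑ i, d i * (u i k : ℝ) = ∑ i, e i * (u i k : ℝ) := by
    intro k
    have h1 : ∑ i, d i * (u i k : ℝ) =
        (∑ i, a K₂ i * (u i k : ℝ) - ∑ i, a K₁ i * (u i k : ℝ)) / (K₂ - K₁) := by
      rw [← Finset.sum_sub_distrib, Finset.sum_div]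
      refine Finset.sum_congr rfl fun i _ => ?_
      simp only [d]
      ring
    rw [h1, hau, hau]
    field_simp
    ring
  have hd : ∀ i, 0 ≤ d i := by
    intro i
    by_contra hneg
    push Not at hneg
    obtain ⟨M, hM⟩ := exists_nat_gt (a K₁ i / (-d i) + K₁)
    obtain ⟨K, hK, hKM⟩ := hinf.exists_gt M
    have h1 : a K i - a K₁ i - ((K : ℝ) - K₁) * d i = 0 := hS.indep hσS
      (x := fun i => a K i - a K₁ i - ((K : ℝ) - K₁) * d i) (by
      intro i hi
      simp only [hoff _ hK i hi, hoff _ hK₁ i hi, hdoff i hi]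
      ring) (by
      intro k
      simp only [sub_mul, Finset.sum_sub_distrib, hau]
      have h2 : ∀ c : ℝ, ∑ i, c * d i * (u i k : ℝ) = c * ∑ i, e i * (u i k : ℝ) := fun c => by
        rw [← hdu, Finset.mul_sum]
        exact Finset.sum_congr rfl fun i _ => by ring
      rw [h2, h2]
      ring) i
    have h2 := ha0 K i
    have h3 : (M : ℝ) < K := by exact_mod_cast hKM
    have h4 : a K₁ i / (-d i) < K - K₁ := by linarith
    rw [div_lt_iff₀ (by linarith)] at h4
    nlinarith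
  have hde : d = e := by
    apply (hS.rep fun k => ∑ i, e i * (u i k : ℝ)).unique
    · refine ⟨hd, hS.face σ hσS _ ?_, hdu⟩
      intro i hi
      by_contra h
      exact hi (hdoff i h)
    · refine ⟨he0, hS.face τ hτ _ ?_, fun k => rfl⟩
      intro i hi
      by_contra h
      exact hi (by simp only [e, if_neg h])
  have hτσ : τ ⊆ σ := by
    intro i hi
    by_contra h
    have h1 := hdoff i h
    rw [hde] at h1
    simp only [e, if_pos hi] at h1
    exact one_ne_zero h1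
  refine ⟨σ, hσS, hτσ, fun i => a K₁ i - K₁ * e i, fun i hi => ?_, fun i hi => ?_, fun k => ?_⟩
  · simp only [e, if_neg hi, mul_zero, sub_zero]
    exact ha0 _ _
  · have h1 : i ∉ τ := fun h => hi (hτσ h)
    simp only [e, if_neg h1, mul_zero, sub_zero]
    exact hoff _ hK₁ i hi
  · simp only [sub_mul, Finset.sum_sub_distrib, hau]
    have h2 : ∑ i, (K₁ : ℝ) * e i * (u i k : ℝ) = K₁ * ∑ i, e i * (u i k : ℝ) := by
      rw [Finset.mul_sum]
      exact Finset.sum_congr rfl fun i _ => by ring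
    rw [h2]
    ring

theorem exists_max_cone {σ : Set ι} (hσ : σ ∈ S) : ∃ σ', IsMax S σ' ∧ σ ⊆ σ' := by
  obtain ⟨σ', h1, h2⟩ := (Set.toFinite S).exists_le_maximal hσ
  exact ⟨σ', ⟨h2.1, fun τ hτ h => le_antisymm (h2.2 hτ h) h⟩, h1⟩

/-- a maximal cone of the star of `τ` without a given ray -/
theorem IsFan.avoid (hS : IsFan u S) {τ : Set ι} (hτ : τ ∈ S) {ρ : ι} (hρ : ρ ∉ τ) :
    ∃ σ, IsMax S σ ∧ τ ⊆ σ ∧ ρ ∉ σ := by
  classical
  obtain ⟨σ, hσ, hτσ, x, hx1, hx2, hx3⟩ := hS.star hτ fun k => -(u ρ k : ℝ)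
  have hsum : ∀ k, ∑ i, (x i + if i = ρ then 1 else 0) * (u i k : ℝ) = 0 := by
    intro k
    simp only [add_mul, Finset.sum_add_distrib, hx3]
    simp
  have hρσ : ρ ∉ σ := by
    intro h
    have h1 := hS.indep hσ (x := fun i => x i + if i = ρ then 1 else 0) (by
      intro i hi
      have h2 : i ≠ ρ := fun e => hi (e ▸ h)
      simp [hx2 i hi, h2]) hsum ρ
    simp only [if_true] at h1
    have := hx1 ρ hρ
    linarith
  obtain ⟨σ', h1, h2⟩ := exists_max_cone hσ
  refine ⟨σ', h1, hτσ.trans h2, fun h => ?_⟩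
  have h3 := hS.indep h1.1 (x := fun i => x i + if i = ρ then 1 else 0) (by
    intro i hi
    have h4 : i ≠ ρ := fun e => hi (e ▸ h)
    have h5 : i ∉ σ := fun h' => hi (h2 h')
    simp [hx2 i h5, h4]) hsum ρ
  simp only [if_true, hx2 ρ hρσ] at h3
  linarith

/-- a cone of dimension `N` in the star of `τ`, with dual integral linear forms up to a factor -/
theorem IsFan.basis (hS : IsFan u S) {τ : Set ι} (hτ : τ ∈ S) :
    ∃ σ ∈ S, τ ⊆ σ ∧ σ.ncard = N ∧ (∃ (D : ℕ) (m : ι → Fin N → ℤ), 1 ≤ D ∧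
      ∀ i ∈ σ, pr u (m i) i = D ∧ ∀ i' ∈ σ, i' ≠ i → pr u (m i) i' = 0) ∧
      ∀ x : Fin N → ℂ, (∀ i ∈ σ, pr u x i = 0) → x = 0 := by
  classical
  let p : {σ : Set ι // σ ∈ S ∧ τ ⊆ σ} → Submodule ℝ (Fin N → ℝ) := fun σ =>
    Submodule.span ℝ (Set.range fun i : σ.1 => fun k => (u i k : ℝ))
  have hcov : ⋃ σ, (p σ : Set (Fin N → ℝ)) = Set.univ := by
    rw [Set.eq_univ_iff_forall]
    intro w
    obtain ⟨σ, hσ, hτσ, x, -, hx2, hx3⟩ := hS.star hτ w
    rw [Set.mem_iUnion]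
    refine ⟨⟨σ, hσ, hτσ⟩, ?_⟩
    have h1 : w = ∑ i, x i • (fun k => (u i k : ℝ)) := by
      funext k
      rw [← hx3 k]
      simp
    rw [h1]
    refine Submodule.sum_mem _ fun i _ => ?_
    by_cases hi : i ∈ σ
    · exact Submodule.smul_mem _ _ (Submodule.subset_span ⟨⟨i, hi⟩, rfl⟩)
    · rw [hx2 i hi, zero_smul]
      exact Submodule.zero_mem _
  obtain ⟨⟨σ, hσ, hτσ⟩, htop⟩ := Subspace.exists_eq_top_of_iUnion_eq_univ hcov
  have hli : LinearIndependent ℝ fun i : σ => fun k => (u i k : ℝ) := by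
    rw [Fintype.linearIndependent_iff]
    intro g hg i
    have h1 := hS.indep hσ (x := fun i => if h : i ∈ σ then g ⟨i, h⟩ else 0)
      (fun i hi => dif_neg hi) (by
        intro k
        have h2 := congrFun hg k
        simp only [Finset.sum_apply, Pi.smul_apply, smul_eq_mul, Pi.zero_apply] at h2
        refine Eq.trans ?_ h2
        have h3 : ∑ i : σ, g i * (u i k : ℝ) =
            ∑ i : σ, (if h : (i : ι) ∈ σ then g ⟨i, h⟩ else 0) * (u i k : ℝ) := by
          refine Finset.sum_congr rfl fun i _ => ?_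
          rw [dif_pos i.2]
        rw [h3, Finset.sum_set_coe (f := fun i : ι =>
          (if h : i ∈ σ then g ⟨i, h⟩ else 0) * (u i k : ℝ))]
        symm
        apply Finset.sum_subset (Finset.subset_univ _)
        intro i _ hi
        rw [Set.mem_toFinset] at hi
        rw [dif_neg hi, zero_mul]) i
    rw [dif_pos i.2] at h1
    exact h1
  let b : Module.Basis σ ℝ (Fin N → ℝ) := Module.Basis.mk hli htop.ge
  have hcard : Fintype.card σ = N := by
    have h1 := Module.finrank_eq_card_basis b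
    rw [Module.finrank_fin_fun] at h1
    exact h1.symm
  let e : Fin N ≃ σ := (Fintype.equivFinOfCardEq hcard).symm
  let U : Matrix (Fin N) (Fin N) ℤ := Matrix.of fun a k => u (e a) k
  have hdet : U.det ≠ 0 := by
    intro h0
    have h1 : LinearIndependent ℝ (U.map (Int.castRingHom ℝ)).row :=
      hli.comp e e.injective
    rw [Matrix.linearIndependent_rows_iff_isUnit, Matrix.isUnit_iff_isUnit_det] at h1
    have h2 : (U.map (Int.castRingHom ℝ)).det = 0 := by
      have := RingHom.map_det (Int.castRingHom ℝ) U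
      rw [h0, map_zero] at this
      exact this.symm
    rw [h2] at h1
    exact not_isUnit_zero h1
  refine ⟨σ, hσ, hτσ, ?_, ⟨(U.det * U.det).toNat, fun i => if h : i ∈ σ then
    U.det • fun k => U.adjugate k (e.symm ⟨i, h⟩) else 0, ?_, ?_⟩, ?_⟩
  · rw [← hcard, Set.ncard_eq_toFinset_card', Set.toFinset_card]
  · have h1 : 0 < U.det * U.det := mul_self_pos.2 hdet
    omega
  · intro i hi
    have key : ∀ i' (hi' : i' ∈ σ), pr u (fun k => U.adjugate k (e.symm ⟨i, hi⟩)) i' =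
        if i' = i then U.det else 0 := by
      intro i' hi'
      have h1 : pr u (fun k => U.adjugate k (e.symm ⟨i, hi⟩)) i' =
          (U * U.adjugate) (e.symm ⟨i', hi'⟩) (e.symm ⟨i, hi⟩) := by
        rw [Matrix.mul_apply, pr]
        refine Finset.sum_congr rfl fun k _ => ?_
        simp only [U, Matrix.of_apply, Equiv.apply_symm_apply, Int.cast_id]
        ring
      rw [h1, Matrix.mul_adjugate, Matrix.smul_apply, Matrix.one_apply]
      by_cases h : i' = i
      · subst h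
        simp
      · have h2 : e.symm ⟨i', hi'⟩ ≠ e.symm ⟨i, hi⟩ := fun h3 => h (by
          have := e.symm.injective h3
          exact congrArg Subtype.val this)
        simp [h, h2]
    simp only [dif_pos hi]
    have hnn : 0 ≤ U.det * U.det := mul_self_nonneg _
    refine ⟨?_, fun i' hi' hne => ?_⟩
    · rw [pr_smul, key i hi, if_pos rfl, Int.toNat_of_nonneg hnn]
    · rw [pr_smul, key i' hi', if_neg hne, mul_zero]
  · intro x hx
    have h1 : (U.map (Int.castRingHom ℂ)).det ≠ 0 := by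
      have := RingHom.map_det (Int.castRingHom ℂ) U
      intro h0
      have h2 : (Int.castRingHom ℂ) U.det = 0 := this.trans h0
      apply hdet
      simpa using h2
    apply Matrix.eq_zero_of_mulVec_eq_zero h1
    funext a
    have h2 := hx (e a) (e a).2
    simp only [Matrix.mulVec, dotProduct, Matrix.map_apply, Pi.zero_apply]
    rw [← h2, pr]
    refine Finset.sum_congr rfl fun k _ => ?_
    simp only [U, Matrix.of_apply, eq_intCast]
    ring

/-- the relative interior of the face of the polytope of an ample class -/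
theorem interior_point (hS : IsFan u S) {a : ι → ℤ} (ha : IsAmpleFree u S a) {τ : Set ι}
    (hτ : τ ∈ S) : ∃ b : ι → ℝ, (∀ i ∈ τ, b i = 0) ∧ (∀ i, i ∉ τ → 0 < b i) ∧
      ∃ m : Fin N → ℝ, ∀ i, b i = a i + pr u m i := by
  classical
  obtain ⟨σ₀, h0, h0'⟩ := exists_max_cone hτ
  have h1 : ∀ ρ : ι, ∃ σ, IsMax S σ ∧ τ ⊆ σ ∧ (ρ ∉ τ → ρ ∉ σ) := by
    intro ρ
    by_cases hρ : ρ ∈ τ
    · exact ⟨σ₀, h0, h0', fun h => absurd hρ h⟩
    · obtain ⟨σ, h2, h3, h4⟩ := hS.avoid hτ hρ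
      exact ⟨σ, h2, h3, fun _ => h4⟩
  choose σ hσ1 hσ2 hσ3 using h1
  choose β hβ1 hβ2 using fun ρ => ha (σ ρ) (hσ1 ρ)
  obtain ⟨β₀, hβ01, m₀, hm₀⟩ := ha σ₀ h0
  choose m hm using hβ2
  set n : ℝ := Fintype.card ι + 1 with hn
  have hn0 : 0 < n := by positivity
  refine ⟨fun i => (β₀ i + ∑ ρ, (β ρ i : ℝ)) / n, fun i hi => ?_, fun i hi => ?_,
    fun k => (m₀ k + ∑ ρ, m ρ k) / n, fun i => ?_⟩
  · have h2 : (β₀ i : ℝ) = 0 := by exact_mod_cast (hβ01 i).2 (h0' hi)
    have h3 : ∀ ρ, (β ρ i : ℝ) = 0 := fun ρ => by exact_mod_cast (hβ1 ρ i).2 (hσ2 ρ hi)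
    simp [h2, h3]
  · apply div_pos _ hn0
    have h2 : 0 < β i i := Nat.pos_of_ne_zero fun h => hσ3 i hi ((hβ1 i i).1 h)
    have h3 : (β i i : ℝ) ≤ ∑ ρ, (β ρ i : ℝ) :=
      Finset.single_le_sum (f := fun ρ => (β ρ i : ℝ)) (fun ρ _ => by positivity)
        (Finset.mem_univ i)
    have h4 : (0 : ℝ) < β i i := by exact_mod_cast h2
    have h5 : (0 : ℝ) ≤ β₀ i := by positivity
    linarith
  · have h2 : pr u (fun k => (m₀ k + ∑ ρ, m ρ k) / n) i = (pr u m₀ i + ∑ ρ, pr u (m ρ) i) / n := by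
      have h3 : (fun k => (m₀ k + ∑ ρ, m ρ k) / n) = n⁻¹ • (m₀ + ∑ ρ, m ρ) := by
        funext k
        simp only [Pi.smul_apply, Pi.add_apply, Finset.sum_apply, smul_eq_mul]
        rw [div_eq_inv_mul]
      rw [h3, pr_smul, pr_add, pr_sum, div_eq_inv_mul]
    have h3 := hm₀ i
    simp only [Int.cast_natCast] at h3
    have h4 : ∀ ρ, (β ρ i : ℝ) = a i + pr u (m ρ) i := fun ρ => by
      have := hm ρ i
      simpa using this
    change ((β₀ i : ℝ) + ∑ ρ, (β ρ i : ℝ)) / n = _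
    rw [h2, h3, Finset.sum_congr rfl fun ρ _ => h4 ρ, Finset.sum_add_distrib, Finset.sum_const,
      Finset.card_univ, nsmul_eq_mul]
    field_simp
    rw [hn]
    ring

/-- a point of the polytope at distance one from one facet through a face -/
theorem moved_point (hS : IsFan u S) {a : ι → ℤ} (ha : IsAmpleFree u S a) {τ : Set ι}
    (hτ : τ ∈ S) {l : ι} (hl : l ∈ τ) : ∃ b : ι → ℝ, b l = 1 ∧ (∀ i ∈ τ, i ≠ l → b i = 0) ∧
      (∀ i, 0 ≤ b i) ∧ ∃ m : Fin N → ℝ, ∀ i, b i = a i + pr u m i := by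
  classical
  obtain ⟨σ₀, h0, h0'⟩ := exists_max_cone hτ
  obtain ⟨σ₁, h1, h1', h1''⟩ := hS.avoid (hS.face τ hτ (τ \ {l}) Set.sdiff_subset)
    (ρ := l) (fun h => h.2 rfl)
  obtain ⟨β₀, hβ0, m₀, hm₀⟩ := ha σ₀ h0
  obtain ⟨β₁, hβ1, m₁, hm₁⟩ := ha σ₁ h1
  have hpos : 1 ≤ β₁ l := Nat.one_le_iff_ne_zero.2 fun h => h1'' ((hβ1 l).1 h)
  have hpos' : (1 : ℝ) ≤ β₁ l := by exact_mod_cast hpos
  set t : ℝ := (β₁ l : ℝ)⁻¹ with ht
  have ht0 : 0 ≤ t := by positivity
  have ht1 : t ≤ 1 := inv_le_one_of_one_le₀ hpos'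
  have hz : ∀ i ∈ τ, (β₀ i : ℝ) = 0 := fun i hi => by exact_mod_cast (hβ0 i).2 (h0' hi)
  refine ⟨fun i => t * β₁ i + (1 - t) * β₀ i, ?_, fun i hi hne => ?_, fun i => ?_,
    t • m₁ + (1 - t) • m₀, fun i => ?_⟩
  · simp only [hz l hl, mul_zero, add_zero]
    rw [ht, inv_mul_cancel₀ (by positivity)]
  · have h2 : (β₁ i : ℝ) = 0 := by exact_mod_cast (hβ1 i).2 (h1' ⟨hi, hne⟩)
    simp [hz i hi, h2]
  · have h2 : 0 ≤ 1 - t := by linarith
    positivity
  · rw [pr_add, pr_smul, pr_smul]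
    have h3 := hm₀ i
    have h4 := hm₁ i
    simp only [Int.cast_natCast] at h3 h4
    simp only [h3, h4]
    ring

end H90.TF
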