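import Pool.Agent.H90.TF.Sel

/-!
# Global generation of adjoint line bundles on complete intersections in toric varieties
-/

set_option autoImplicit false

namespace H90.TF

open MvPolynomial Module

variable {ι : Type} [Fintype ι] {N : ℕ} {u : ι → Fin N → ℤ} {S : Set (Set ι)}

theorem assemble (hS : IsFan u S) {c n k : ℕ} (hN : N = n + c) (hk : n + 1 ≤ k)
    {f : Fin c → MvPolynomial ι ℂ} {D : Fin c → ι → ℤ} (hf : ∀ j, IsHomog u (f j) (D j))
    {τ : Set ι} (hτ : τ ∈ S) {mm : ι → Fin N → ℤ} (hmm : IsDual u τ mm) {L : Fin c → Set ι}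
    (C : Choice u f τ L) (hL : ∀ j, ∀ l ∈ L j, Movable u τ (D j) l) {A : Fin k → ι → ℤ}
    (hA : ∀ q, IsAmpleFree u S (A q)) :
    ∃ μ : ι →₀ ℕ, (∀ i ∈ τ, μ i = 0) ∧
      LinEquiv u (fun i => (μ i : ℤ)) fun i => ∑ j, D j i + ∑ q, A q i - 1 := by
  classical
  -- the divisors of the equations
  have hb : ∀ j, ∃ (b : ι → ℝ) (m : Fin N → ℝ), (∀ i, b i = D j i + pr u m i) ∧ (∀ i, 0 ≤ b i) ∧
      (j ∈ C.P → (∀ i ∈ τ, b i = 0) ∧ ∀ i, 0 ≤ b i + (pr u (C.v j) i : ℤ)) ∧
      ∀ h : j ∉ C.P, ∀ i ∈ τ, b i = if i = C.l ⟨j, h⟩ then 1 else 0 := by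
    intro j
    by_cases hj : j ∈ C.P
    · obtain ⟨-, α, hα, α', -, h0, -, h1⟩ := C.diff j hj
      obtain ⟨m, hm⟩ := hf j α hα
      replace hm : ∀ i, (α i : ℤ) = D j i + pr u m i := hm
      refine ⟨fun i => (α i : ℝ), fun k => (m k : ℝ), fun i => ?_, fun i => by positivity,
        fun _ => ⟨fun i hi => by simp [h0 i hi], fun i => ?_⟩, fun h => absurd hj h⟩
      · have h7 : ((α i : ℤ) : ℝ) = ((D j i + pr u m i : ℤ) : ℝ) := by rw [hm i]
        push_cast at h7
        change (α i : ℝ) = D j i + pr u (fun k => (m k : ℝ)) i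
        rw [h7]
        congr 1
        simp [pr]
      · have h7 : ((α' i : ℤ) : ℝ) = ((α i + pr u (C.v j) i : ℤ) : ℝ) := by rw [h1 i]
        push_cast at h7
        rw [← h7]
        positivity
    · obtain ⟨b, h1, h2, h3, m, h4⟩ := hL j _ (C.mem ⟨j, hj⟩).2
      refine ⟨b, m, h4, h3, fun h => absurd h hj, fun _ i hi => ?_⟩
      by_cases h5 : i = C.l ⟨j, hj⟩
      · rw [if_pos h5, h5, h1]
      · rw [if_neg h5, h2 i hi h5]
  choose b mb hb1 hb2 hb3 hb4 using hb
  -- the unmatched rays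
  let M : Finset ι := Finset.univ.image C.l
  let T : Finset ι := (Finset.univ.filter (· ∈ τ)) \ M
  have hMτ : M ⊆ Finset.univ.filter (· ∈ τ) := by
    intro i hi
    obtain ⟨j, _, rfl⟩ := Finset.mem_image.1 hi
    exact Finset.mem_filter.2 ⟨Finset.mem_univ _, (C.mem j).1⟩
  have hMcard : M.card = c - C.P.card := by
    rw [Finset.card_image_of_injective _ C.inj, Finset.card_univ, Fintype.card_subtype_compl,
      Fintype.card_fin]
    congr 1
    exact Fintype.card_coe _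
  have hτcard : (Finset.univ.filter (· ∈ τ)).card = τ.ncard := by
    rw [← Set.ncard_coe_finset]
    congr 1
    ext i
    simp
  have hPc : C.P.card ≤ c := by
    have := Finset.card_le_univ C.P
    rwa [Fintype.card_fin] at this
  have hTcard : T.card ≤ n := by
    have h1 := Finset.card_sdiff_of_subset hMτ
    have h2 := C.card
    have h3 : T.card = τ.ncard - (c - C.P.card) := by
      rw [← hτcard, ← hMcard]; exact h1
    omega
  have hTτ : ∀ i ∈ T, i ∈ τ := fun i hi =>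
    (Finset.mem_filter.1 (Finset.mem_sdiff.1 hi).1).2
  obtain ⟨e⟩ : Nonempty (T ↪ Fin k) := by
    refine Function.Embedding.nonempty_of_card_le ?_
    rw [Fintype.card_coe, Fintype.card_fin]
    omega
  obtain ⟨q₀, hq₀⟩ : ∃ q₀, ∀ t, e t ≠ q₀ := by
    by_contra hcon
    push Not at hcon
    have h1 := Fintype.card_le_of_surjective e hcon
    rw [Fintype.card_coe, Fintype.card_fin] at h1
    omega
  -- the ample divisors
  have ha : ∀ q, ∃ (a : ι → ℝ) (m : Fin N → ℝ), (∀ i, a i = A q i + pr u m i) ∧ (∀ i, 0 ≤ a i) ∧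
      (∀ i ∈ τ, a i = if ∃ t : T, e t = q ∧ (t : ι) = i then 1 else 0) ∧
      ((∀ t, e t ≠ q) → ∀ i, i ∉ τ → 0 < a i) := by
    intro q
    by_cases hq : ∃ t, e t = q
    · obtain ⟨t, rfl⟩ := hq
      obtain ⟨a, h1, h2, h3, m, h4⟩ := moved_point hS (hA (e t)) hτ (hTτ t t.2)
      refine ⟨a, m, h4, h3, fun i hi => ?_, fun h => absurd rfl (h t)⟩
      by_cases h5 : i = t
      · rw [if_pos ⟨t, rfl, h5.symm⟩, h5, h1]
      · rw [if_neg, h2 i hi h5]
        rintro ⟨t', ht', h6⟩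
        have := e.injective ht'
        rw [this] at h6
        exact h5 h6.symm
    · obtain ⟨a, h1, h2, m, h3⟩ := interior_point hS (hA q) hτ
      refine ⟨a, m, h3, fun i => ?_, fun i hi => ?_, fun _ => h2⟩
      · by_cases hi : i ∈ τ
        · rw [h1 i hi]
        · exact (h2 i hi).le
      · rw [if_neg (fun ⟨t, ht, _⟩ => hq ⟨t, ht⟩), h1 i hi]
  choose a ma ha1 ha2 ha3 ha4 using ha
  -- the sum is one on `τ`
  have hone : ∀ i ∈ τ, ∑ j, b j i + ∑ q, a q i = 1 := by
    intro i hi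
    by_cases hiM : i ∈ M
    · obtain ⟨⟨j₀, hj₀⟩, _, hj₀'⟩ := Finset.mem_image.1 hiM
      have h1 : ∑ j, b j i = 1 := by
        rw [Finset.sum_eq_single j₀]
        · rw [hb4 j₀ hj₀ i hi, if_pos hj₀'.symm]
        · intro j _ hj
          by_cases hjP : j ∈ C.P
          · exact (hb3 j hjP).1 i hi
          · rw [hb4 j hjP i hi, if_neg]
            intro h2
            apply hj
            have h3 := C.inj (a₁ := ⟨j, hjP⟩) (a₂ := ⟨j₀, hj₀⟩) (by rw [← h2, hj₀'])
            exact congrArg Subtype.val h3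
        · intro h; exact absurd (Finset.mem_univ _) h
      have h2 : ∑ q, a q i = 0 := by
        refine Finset.sum_eq_zero fun q _ => ?_
        rw [ha3 q i hi, if_neg]
        rintro ⟨t, _, rfl⟩
        exact (Finset.mem_sdiff.1 t.2).2 hiM
      rw [h1, h2, add_zero]
    · have hiT : i ∈ T := Finset.mem_sdiff.2 ⟨Finset.mem_filter.2 ⟨Finset.mem_univ _, hi⟩, hiM⟩
      have h1 : ∑ j, b j i = 0 := by
        refine Finset.sum_eq_zero fun j _ => ?_
        by_cases hjP : j ∈ C.P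
        · exact (hb3 j hjP).1 i hi
        · rw [hb4 j hjP i hi, if_neg]
          intro h2
          exact hiM (Finset.mem_image.2 ⟨⟨j, hjP⟩, Finset.mem_univ _, h2.symm⟩)
      have h2 : ∑ q, a q i = 1 := by
        rw [Finset.sum_eq_single (e ⟨i, hiT⟩)]
        · rw [ha3 _ i hi, if_pos ⟨⟨i, hiT⟩, rfl, rfl⟩]
        · intro q _ hq
          rw [ha3 q i hi, if_neg]
          rintro ⟨t, ht, h3⟩
          apply hq
          rw [← ht]
          congr 1
          exact Subtype.ext h3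
        · intro h; exact absurd (Finset.mem_univ _) h
      rw [h1, h2, zero_add]
  -- the class
  let Dt : ι → ℤ := fun i => ∑ j, D j i + ∑ q, A q i
  let m₀ : Fin N → ℝ := ∑ j, mb j + ∑ q, ma q
  have htot : ∀ i, ∑ j, b j i + ∑ q, a q i = (Dt i : ℝ) + pr u m₀ i := by
    intro i
    simp only [Dt, m₀, pr_add, pr_sum, hb1, ha1, Finset.sum_add_distrib]
    push_cast
    ring
  let m₁ : Fin N → ℤ := ∑ l ∈ Finset.univ.filter (· ∈ τ), (1 - Dt l) • mm l
  have hm₁ : ∀ l ∈ τ, pr u m₁ l = 1 - Dt l := by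
    intro l hl
    simp only [m₁]
    rw [pr_sum, Finset.sum_eq_single l]
    · rw [pr_smul, (hmm l hl).1, mul_one]
    · intro i hi hil
      rw [Finset.mem_filter] at hi
      rw [pr_smul, (hmm i hi.2).2 l hl (Ne.symm hil), mul_zero]
    · intro h
      exact absurd (Finset.mem_filter.2 ⟨Finset.mem_univ _, hl⟩) h
  have hcast : ∀ (m : Fin N → ℤ) (i : ι), pr u (fun k => (m k : ℝ)) i = ((pr u m i : ℤ) : ℝ) :=
    fun m i => by simp [pr]
  obtain ⟨t, ht0, ht⟩ := C.span ((fun k => (m₁ k : ℝ)) - m₀) (by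
    intro l hl
    rw [pr_sub, hcast, hm₁ l hl]
    have h1 := htot l
    rw [hone l hl] at h1
    push_cast
    linarith)
  let m : Fin N → ℤ := m₁ - ∑ j, ⌊t j⌋ • C.v j
  have hvτ : ∀ j, j ∈ C.P → ∀ l ∈ τ, pr u (C.v j) l = 0 := fun j hj => (C.diff j hj).1
  have hmτ : ∀ l ∈ τ, Dt l + pr u m l - 1 = 0 := by
    intro l hl
    have h1 : pr u m l = pr u m₁ l := by
      have h2 : pr u (∑ j, ⌊t j⌋ • C.v j) l = 0 := by
        rw [pr_sum]
        refine Finset.sum_eq_zero fun j _ => ?_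
        rw [pr_smul]
        by_cases hj : j ∈ C.P
        · rw [hvτ j hj l hl, mul_zero]
        · rw [ht0 j hj, Int.floor_zero, zero_mul]
      have h3 : pr u m l = pr u m₁ l - pr u (∑ j, ⌊t j⌋ • C.v j) l := pr_sub _ _ _
      rw [h3, h2, sub_zero]
    rw [h1, hm₁ l hl]
    ring
  have hm : ∀ i, ((Dt i + pr u m i : ℤ) : ℝ) =
      ∑ j, (b j i + Int.fract (t j) * (pr u (C.v j) i : ℤ)) + ∑ q, a q i := by
    intro i
    have h1 : (fun k => (m k : ℝ)) = m₀ + ∑ j, Int.fract (t j) • fun k => (C.v j k : ℝ) := by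
      have h2 : (fun k => (m k : ℝ)) = (fun k => (m₁ k : ℝ)) -
          ∑ j, (⌊t j⌋ : ℝ) • fun k => (C.v j k : ℝ) := by
        funext k
        simp [m]
      have h3 : (fun k => (m₁ k : ℝ)) = m₀ + ∑ j, t j • fun k => (C.v j k : ℝ) := by
        rw [← ht]; abel
      rw [h2, h3, add_sub_assoc, ← Finset.sum_sub_distrib]
      congr 1
      refine Finset.sum_congr rfl fun j _ => ?_
      rw [← sub_smul]
      rfl
    push_cast
    rw [← hcast, h1, pr_add, pr_sum, Finset.sum_add_distrib]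
    have h2 := htot i
    simp only [pr_smul, hcast]
    linarith
  have hpos : ∀ i, i ∉ τ → 1 ≤ Dt i + pr u m i := by
    intro i hi
    have h1 : (0 : ℝ) < ((Dt i + pr u m i : ℤ) : ℝ) := by
      rw [hm i]
      have h2 : 0 ≤ ∑ j, (b j i + Int.fract (t j) * ((pr u (C.v j) i : ℤ) : ℝ)) := by
        refine Finset.sum_nonneg fun j _ => ?_
        by_cases hj : j ∈ C.P
        · have h3 := hb2 j i
          have h4 := (hb3 j hj).2 i
          have h5 := Int.fract_nonneg (t j)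
          have h6 := (Int.fract_lt_one (t j)).le
          nlinarith
        · rw [ht0 j hj, Int.fract_zero, zero_mul, add_zero]
          exact hb2 j i
      have h3 : 0 < ∑ q, a q i :=
        Finset.sum_pos' (fun q _ => ha2 q i) ⟨q₀, Finset.mem_univ _, ha4 q₀ hq₀ i hi⟩
      linarith
    have h2 : 0 < Dt i + pr u m i := by exact_mod_cast h1
    omega
  refine ⟨Finsupp.equivFunOnFinite.symm fun i => (Dt i + pr u m i - 1).toNat, fun i hi => ?_,
    m, fun i => ?_⟩
  · rw [Finsupp.equivFunOnFinite_symm_apply_apply]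
    rw [hmτ i hi]
    rfl
  · simp only [Finsupp.equivFunOnFinite_symm_apply_apply]
    have h1 : 0 ≤ Dt i + pr u m i - 1 := by
      by_cases hi : i ∈ τ
      · rw [hmτ i hi]
      · have := hpos i hi
        omega
    rw [Int.toNat_of_nonneg h1]
    simp only [Dt]
    ring

/-- The main theorem. -/
theorem main (hS : IsFan u S) {c n k : ℕ} (hN : N = n + c) (hk : n + 1 ≤ k)
    {f : Fin c → MvPolynomial ι ℂ} {D : Fin c → ι → ℤ} (hf : ∀ j, IsHomog u (f j) (D j))
    (hreg : ∀ y, IsPoint S f y → IsRegularCone u {i | y i = 0})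
    (hX : (∀ y, IsPoint S f y → LinearIndependent ℂ fun j => fun i => eval y (pderiv i (f j))) ∨
      ∀ j, IsAmpleFree u S (D j))
    {A : Fin k → ι → ℤ} (hA : ∀ q, IsAmpleFree u S (A q)) {y : ι → ℂ} (hy : IsPoint S f y) :
    ∃ μ : ι →₀ ℕ, LinEquiv u (fun i => (μ i : ℤ)) (fun i => ∑ j, D j i + ∑ q, A q i - 1) ∧
      eval y (monomial μ 1) ≠ 0 := by
  classical
  -- a point in a minimal orbit
  let Z : Set (Set ι) := {τ | {i | y i = 0} ⊆ τ ∧ ∃ z, IsPoint S f z ∧ {i | z i = 0} = τ}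
  obtain ⟨τ, hτle, hτmax⟩ := (Set.toFinite Z).exists_le_maximal (a := {i | y i = 0})
    ⟨le_refl _, y, hy, rfl⟩
  obtain ⟨⟨-, z, hz, hzτ⟩, hτmax⟩ := hτmax
  have hτ : τ ∈ S := by rw [← hzτ]; exact hz.1
  have hmax : ∀ w, IsPoint S f w → τ ⊆ {i | w i = 0} → {i | w i = 0} = τ := by
    intro w hw hτw
    exact le_antisymm (hτmax ⟨hτle.trans hτw, w, hw, rfl⟩ hτw) hτw
  obtain ⟨mm, hmm⟩ := hreg z hz
  rw [hzτ] at hmm
  have hmm' : IsDual u τ mm := hmm
  have key : ∃ μ : ι →₀ ℕ, (∀ i ∈ τ, μ i = 0) ∧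
      LinEquiv u (fun i => (μ i : ℤ)) fun i => ∑ j, D j i + ∑ q, A q i - 1 := by
    rcases hX with hX | hX
    · obtain ⟨C⟩ := choice_of_smooth hS hf hτ hmm' hmax hz hzτ (hX z hz)
      exact assemble hS hN hk hf hτ hmm' C (fun j l hl => hl) hA
    · obtain ⟨C⟩ := choice_of_ample hS (by omega) hf hτ hmm' hmax hz hzτ
      exact assemble hS hN hk hf hτ hmm'
        { P := C.P, v := C.v, l := C.l, diff := C.diff, mem := fun j => ⟨(C.mem j).1, (C.mem j).1⟩,
          inj := C.inj, span := C.span, card := C.card : Choice u f τ fun _ => τ }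
        (fun j l hl => moved_point hS (hX j) hτ hl) hA
  obtain ⟨μ, hμ1, hμ2⟩ := key
  refine ⟨μ, hμ2, ?_⟩
  rw [eval_monomial, one_mul, Finsupp.prod_fintype _ _ (by simp), Finset.prod_ne_zero_iff]
  intro i _
  by_cases hi : y i = 0
  · rw [hμ1 i (hτle hi), pow_zero]
    exact one_ne_zero
  · exact pow_ne_zero _ hi

end H90.TF
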