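import Pool.Agent.H90.TF.Dim

/-!
# The choice of differences and of directions
-/

set_option autoImplicit false

namespace H90.TF

open MvPolynomial Module

variable {ι : Type} [Fintype ι] {N : ℕ} {u : ι → Fin N → ℤ} {S : Set (Set ι)}

/-- For `j ∈ P` the `v j` are differences of exponents of `f j`, and they span the space of the linear
forms which are zero on `τ`; the other `j` are matched with rays `l j ∈ τ ∩ L j`. -/
structure Choice (u : ι → Fin N → ℤ) {c : ℕ} (f : Fin c → MvPolynomial ι ℂ) (τ : Set ι)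
    (L : Fin c → Set ι) where
  P : Finset (Fin c)
  v : Fin c → Fin N → ℤ
  l : {j // j ∉ P} → ι
  diff : ∀ j ∈ P, v j ∈ diffs u (f j) τ
  mem : ∀ j, l j ∈ τ ∧ l j ∈ L j
  inj : Function.Injective l
  span : ∀ m : Fin N → ℝ, (∀ i ∈ τ, pr u m i = 0) → ∃ t : Fin c → ℝ, (∀ j, j ∉ P → t j = 0) ∧
    m = ∑ j, t j • fun k => (v j k : ℝ)
  card : P.card + τ.ncard ≤ N

theorem finrank_perp_le (hS : IsFan u S) {τ : Set ι} (hτ : τ ∈ S) :
    finrank ℂ (perp u τ) + τ.ncard ≤ N := by
  classical
  obtain ⟨σ, hσ, hτσ, hσc, -, hσ0⟩ := hS.basis hτ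
  set T : Finset ι := Finset.univ.filter fun i => i ∈ σ ∧ i ∉ τ with hT
  have hmemT : ∀ i, i ∈ T ↔ i ∈ σ ∧ i ∉ τ := fun i => by simp [hT]
  have hdim : finrank ℂ (perp u τ) ≤ T.card := by
    let L : perp u τ →ₗ[ℂ] (T → ℂ) :=
      { toFun := fun x i => pr u (x : Fin N → ℂ) i
        map_add' := fun x y => by funext i; exact pr_add _ _ _
        map_smul' := fun c x => by funext i; exact pr_smul _ _ _ }
    have hL : Function.Injective L := by
      rw [← LinearMap.ker_eq_bot, LinearMap.ker_eq_bot']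
      intro x hx
      apply Subtype.ext
      apply hσ0
      intro i hi
      by_cases hiτ : i ∈ τ
      · exact x.2 i hiτ
      · exact congrFun hx ⟨i, (hmemT i).2 ⟨hi, hiτ⟩⟩
    have := LinearMap.finrank_le_finrank_of_injective hL
    simpa using this
  have h1 : T.card + τ.ncard = σ.ncard := by
    have h2 : (T : Set ι) = σ \ τ := by
      ext i
      simp [hmemT]
    rw [← Set.ncard_coe_finset, h2]
    exact Set.ncard_sdiff_add_ncard_of_subset hτσ (Set.toFinite _)
  omega

theorem le_finrank_perp (τ : Set ι) : N ≤ finrank ℂ (perp u τ) + τ.ncard := by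
  classical
  let L : (Fin N → ℂ) →ₗ[ℂ] (τ → ℂ) :=
    { toFun := fun x i => pr u x i
      map_add' := fun x y => by funext i; exact pr_add _ _ _
      map_smul' := fun c x => by funext i; exact pr_smul _ _ _ }
  have h1 : LinearMap.ker L = perp u τ := by
    ext x
    rw [LinearMap.mem_ker, mem_perp]
    constructor
    · intro h l hl
      exact congrFun h ⟨l, hl⟩
    · intro h
      funext l
      exact h l l.2
  have h2 := LinearMap.finrank_range_add_finrank_ker L
  rw [h1, Module.finrank_fin_fun] at h2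
  have h3 : finrank ℂ (LinearMap.range L) ≤ τ.ncard := by
    refine (Submodule.finrank_le _).trans ?_
    rw [Module.finrank_fintype_fun_eq_card, Set.ncard_eq_toFinset_card', Set.toFinset_card]
  omega

/-- the projection to `perp` -/
noncomputable def proj (u : ι → Fin N → ℤ) (τ : Set ι) (m : ι → Fin N → ℤ) :
    (Fin N → ℂ) →ₗ[ℂ] (Fin N → ℂ) :=
  open Classical in
  { toFun := fun x => x - ∑ l ∈ Finset.univ.filter (· ∈ τ), pr u x l • cst (m l)
    map_add' := fun x y => by
      simp only [pr_add, add_smul, Finset.sum_add_distrib]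
      abel
    map_smul' := fun c x => by
      simp only [pr_smul, mul_smul, RingHom.id_apply, smul_sub, Finset.smul_sum] }

/-- the dual linear forms of a regular cone -/
def IsDual (u : ι → Fin N → ℤ) (τ : Set ι) (m : ι → Fin N → ℤ) : Prop :=
  ∀ l ∈ τ, pr u (m l) l = 1 ∧ ∀ i ∈ τ, i ≠ l → pr u (m l) i = 0

theorem proj_apply (τ : Set ι) (m : ι → Fin N → ℤ) (x : Fin N → ℂ) :
    proj u τ m x = x - ∑ l ∈ (open Classical in Finset.univ.filter (· ∈ τ)), pr u x l • cst (m l) :=
  rfl

theorem proj_mem {τ : Set ι} {m : ι → Fin N → ℤ} (hm : IsDual u τ m) (x : Fin N → ℂ) :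
    proj u τ m x ∈ perp u τ := by
  classical
  intro l hl
  rw [proj_apply, pr_sub, pr_sum, Finset.sum_eq_single l]
  · rw [pr_smul, pr_cst, (hm l hl).1, Int.cast_one, mul_one, sub_self]
  · intro i hi hil
    rw [Finset.mem_filter] at hi
    rw [pr_smul, pr_cst, (hm i hi.2).2 l hl (Ne.symm hil), Int.cast_zero, mul_zero]
  · intro h
    exact absurd (Finset.mem_filter.2 ⟨Finset.mem_univ _, hl⟩) h

theorem proj_of_mem {τ : Set ι} (m : ι → Fin N → ℤ) {x : Fin N → ℂ} (hx : x ∈ perp u τ) :
    proj u τ m x = x := by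
  classical
  rw [proj_apply, Finset.sum_eq_zero, sub_zero]
  intro l hl
  rw [Finset.mem_filter] at hl
  rw [hx l hl.2, zero_smul]

theorem proj_dual {τ : Set ι} {m : ι → Fin N → ℤ} (hm : IsDual u τ m) {l : ι} (hl : l ∈ τ) :
    proj u τ m (cst (m l)) = 0 := by
  classical
  rw [proj_apply, Finset.sum_eq_single l]
  · rw [pr_cst, (hm l hl).1, Int.cast_one, one_smul, sub_self]
  · intro i hi hil
    rw [Finset.mem_filter] at hi
    rw [pr_cst, (hm l hl).2 i hi.2 hil, Int.cast_zero, zero_smul]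
  · intro h
    exact absurd (Finset.mem_filter.2 ⟨Finset.mem_univ _, hl⟩) h

/-- the generating sets -/
def gens (u : ι → Fin N → ℤ) (f : MvPolynomial ι ℂ) (τ : Set ι) (L : Set ι)
    (m : ι → Fin N → ℤ) : Set (Fin N → ℂ) :=
  cst '' diffs u f τ ∪ (fun l => cst (m l)) '' (τ ∩ L)

/-- from an independent family in the spans of the generating sets to a choice -/
theorem exists_choice (hS : IsFan u S) {c : ℕ} {f : Fin c → MvPolynomial ι ℂ} {τ : Set ι}
    (hτ : τ ∈ S) {L : Fin c → Set ι} {m : ι → Fin N → ℤ} (hm : IsDual u τ m)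
    {w : Fin c → Fin N → ℂ} (hw : ∀ j, w j ∈ Submodule.span ℂ (gens u (f j) τ (L j) m))
    (h1 : LinearIndependent ℂ w)
    (h2 : Submodule.span ℂ (Set.range fun j => proj u τ m (w j)) = perp u τ) :
    Nonempty (Choice u f τ L) := by
  classical
  obtain ⟨x, hx, hli, hsp⟩ := replace (proj u τ m) (perp u τ) (fun j => gens u (f j) τ (L j) m)
    (fun j x _ => proj_mem hm x) hw h1 h2
  let P : Finset (Fin c) := Finset.univ.filter fun j => x j ∈ cst '' diffs u (f j) τ
  have hP : ∀ j, j ∈ P ↔ x j ∈ cst '' diffs u (f j) τ := fun j => by simp [P]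
  have hv : ∀ j, ∃ v : Fin N → ℤ, j ∈ P → v ∈ diffs u (f j) τ ∧ cst v = x j := by
    intro j
    by_cases hj : j ∈ P
    · obtain ⟨v, hv, hv'⟩ := (hP j).1 hj
      exact ⟨v, fun _ => ⟨hv, hv'⟩⟩
    · exact ⟨0, fun h => absurd h hj⟩
  choose v hv using hv
  have hl : ∀ j : {j // j ∉ P}, ∃ l : ι, l ∈ τ ∧ l ∈ L j ∧ cst (m l) = x j := by
    intro j
    rcases hx j with h | ⟨l, hl, hl'⟩
    · exact absurd ((hP j).2 h) j.2
    · exact ⟨l, hl.1, hl.2, hl'⟩
  choose l hl1 hl2 hl3 using hl
  have hvperp : ∀ j ∈ P, cst (v j) ∈ perp u τ := fun j hj => by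
    intro i hi
    rw [pr_cst, (hv j hj).1.1 i hi, Int.cast_zero]
  refine ⟨⟨P, v, l, fun j hj => (hv j hj).1, fun j => ⟨hl1 j, hl2 j⟩, ?_, ?_, ?_⟩⟩
  · intro j j' h
    have h3 : x j = x j' := by rw [← hl3, ← hl3, h]
    exact Subtype.ext (hli.injective h3)
  · intro mr hmr
    have h3 : (fun k => (mr k : ℂ)) ∈ perp u τ := by
      intro i hi
      have h4 := hmr i hi
      have h5 : pr u (fun k => (mr k : ℂ)) i = ((pr u mr i : ℝ) : ℂ) := by
        simp [pr]
      rw [h5, h4, Complex.ofReal_zero]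
    rw [← hsp, Submodule.mem_span_range_iff_exists_fun] at h3
    obtain ⟨t, ht⟩ := h3
    refine ⟨fun j => if j ∈ P then (t j).re else 0, fun j hj => if_neg hj, ?_⟩
    funext k
    have h4 := congrArg Complex.re (congrFun ht k)
    simp only [Complex.ofReal_re] at h4
    rw [← h4, Finset.sum_apply, Finset.sum_apply, Complex.re_sum]
    refine Finset.sum_congr rfl fun j _ => ?_
    by_cases hj : j ∈ P
    · rw [← (hv j hj).2, proj_of_mem m (hvperp j hj)]
      simp [cst, hj]
    · have h5 : x j = cst (m (l ⟨j, hj⟩)) := (hl3 ⟨j, hj⟩).symm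
      rw [h5, proj_dual hm (hl1 _)]
      simp [hj]
  · have h3 : LinearIndependent ℂ fun j : P => (⟨x j, by
        rw [← (hv j j.2).2]; exact hvperp j j.2⟩ : perp u τ) := by
      apply LinearIndependent.of_comp (perp u τ).subtype
      exact hli.comp Subtype.val Subtype.val_injective
    have h4 := h3.fintype_card_le_finrank
    rw [Fintype.card_coe] at h4
    have h5 := finrank_perp_le hS hτ
    omega

/-- the directions in which there is an `ℝ`-divisor of the class `D` at distance one -/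
def Movable (u : ι → Fin N → ℤ) (τ : Set ι) (D : ι → ℤ) (l : ι) : Prop :=
  ∃ b : ι → ℝ, b l = 1 ∧ (∀ i ∈ τ, i ≠ l → b i = 0) ∧ (∀ i, 0 ≤ b i) ∧
    ∃ m : Fin N → ℝ, ∀ i, b i = D i + pr u m i

/-- ample equations -/
theorem choice_of_ample (hS : IsFan u S) {c : ℕ} (hc : c ≤ N) {f : Fin c → MvPolynomial ι ℂ}
    {D : Fin c → ι → ℤ} (hf : ∀ j, IsHomog u (f j) (D j)) {τ : Set ι} (hτ : τ ∈ S)
    {m : ι → Fin N → ℤ} (hm : IsDual u τ m)
    (hmax : ∀ y, IsPoint S f y → τ ⊆ {i | y i = 0} → {i | y i = 0} = τ) {z : ι → ℂ}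
    (hz : IsPoint S f z) (hzτ : {i | z i = 0} = τ) :
    Nonempty (Choice u f τ fun _ => Set.univ) := by
  classical
  obtain ⟨a, ha, hasp⟩ := exists_span hS hf hτ hmax hz hzτ
  obtain ⟨κ, e, he, hes, hel⟩ := exists_linearIndependent' ℂ a
  have : Finite κ := Finite.of_injective e he
  have := Fintype.ofFinite κ
  have hκ : Fintype.card κ = finrank ℂ (perp u τ) := by
    rw [← hasp, ← hes, finrank_span_eq_card hel]
  -- the other equations are matched with rays
  have hcard : Fintype.card {j // j ∉ Set.range e} ≤ Fintype.card τ := by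
    have h1 : Fintype.card {j // j ∉ Set.range e} = c - Fintype.card κ := by
      rw [Fintype.card_subtype_compl, Fintype.card_fin]
      congr 1
      exact (Fintype.card_congr (Equiv.ofInjective e he)).symm
    have h2 := le_finrank_perp (u := u) τ
    rw [Set.ncard_eq_toFinset_card', Set.toFinset_card] at h2
    omega
  obtain ⟨g⟩ := Function.Embedding.nonempty_of_card_le hcard
  have hap : ∀ j, a j ∈ perp u τ := fun j => by
    rw [← hasp]; exact Submodule.subset_span ⟨j, rfl⟩
  let w : Fin c → Fin N → ℂ := fun j =>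
    if h : j ∉ Set.range e then cst (m (g ⟨j, h⟩)) else a j
  refine exists_choice hS hτ hm (w := w) ?_ ?_ ?_
  · intro j
    by_cases h : j ∉ Set.range e
    · simp only [w, dif_pos h]
      exact Submodule.subset_span (Or.inr ⟨_, ⟨(g ⟨j, h⟩).2, Set.mem_univ _⟩, rfl⟩)
    · simp only [w, dif_neg h]
      exact Submodule.span_mono Set.subset_union_left (ha j)
  · rw [Fintype.linearIndependent_iff]
    intro t ht
    have h1 : ∀ j, j ∉ Set.range e → t j = 0 := by
      intro j hj
      have h2 := congrArg (fun x => pr u x (g ⟨j, hj⟩)) ht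
      simp only [pr_sum, pr_smul] at h2
      rw [Finset.sum_eq_single j] at h2
      · simp only [w, dif_pos hj, pr_cst, (hm _ (g ⟨j, hj⟩).2).1, Int.cast_one, mul_one] at h2
        rw [h2]
        simp [pr]
      · intro j' _ hne
        by_cases h : j' ∉ Set.range e
        · have h3 : ((g ⟨j, hj⟩ : τ) : ι) ≠ g ⟨j', h⟩ := fun h4 => hne (by
            have := g.injective (Subtype.ext h4)
            exact (congrArg Subtype.val this).symm)
          simp only [w, dif_pos h, pr_cst, (hm _ (g ⟨j', h⟩).2).2 _ (g ⟨j, hj⟩).2 h3,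
            Int.cast_zero, mul_zero]
        · simp only [w, dif_neg h]
          rw [hap j' _ (g ⟨j, hj⟩).2, mul_zero]
      · intro h; exact absurd (Finset.mem_univ _) h
    have h2 : ∑ k, t (e k) • a (e k) = 0 := by
      rw [← ht]
      have h3 : ∑ j, t j • w j = ∑ j ∈ Finset.univ.image e, t j • w j := by
        symm
        apply Finset.sum_subset (Finset.subset_univ _)
        intro j _ hj
        rw [h1 j (fun ⟨k, hk⟩ => hj (Finset.mem_image.2 ⟨k, Finset.mem_univ _, hk⟩)), zero_smul]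
      rw [h3, Finset.sum_image fun k _ k' _ h => he h]
      refine Finset.sum_congr rfl fun k _ => ?_
      have h4 : ¬ (e k ∉ Set.range e) := not_not.2 ⟨k, rfl⟩
      simp only [w, dif_neg h4]
    intro j
    by_cases hj : j ∈ Set.range e
    · obtain ⟨k, rfl⟩ := hj
      exact Fintype.linearIndependent_iff.1 hel (fun k => t (e k)) h2 k
    · exact h1 j hj
  · apply le_antisymm
    · rw [Submodule.span_le]
      rintro _ ⟨j, rfl⟩
      exact proj_mem hm _
    · rw [← hasp, ← hes, Submodule.span_le]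
      rintro _ ⟨k, rfl⟩
      refine Submodule.subset_span ⟨e k, ?_⟩
      have h4 : ¬ (e k ∉ Set.range e) := not_not.2 ⟨k, rfl⟩
      simp only [w, dif_neg h4, proj_of_mem m (hap _), Function.comp]

theorem eval_X_mul_pderiv (f : MvPolynomial ι ℂ) (z : ι → ℂ) (i : ι) :
    z i * eval z (pderiv i f) = ∑ α ∈ f.support, coeff α f * (α i * ∏ k, z k ^ α k) := by
  classical
  have h1 : z i * eval z (pderiv i f) = eval z (X i * pderiv i f) := by simp
  rw [h1]
  conv_lhs => rw [f.as_sum]
  rw [map_sum, Finset.mul_sum, map_sum]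
  refine Finset.sum_congr rfl fun α _ => ?_
  rw [X_mul_pderiv_monomial, map_nsmul, eval_monomial, Finsupp.prod_fintype _ _ (by simp)]
  rw [nsmul_eq_mul]
  ring

/-- the logarithmic differential along the orbit -/
theorem exists_theta {f : MvPolynomial ι ℂ} {D : ι → ℤ} (hf : IsHomog u f D) {τ : Set ι}
    {z : ι → ℂ} (hz : {i | z i = 0} = τ) (hfz : eval z f = 0) :
    ∃ θ ∈ Submodule.span ℂ (cst '' diffs u f τ), ∀ i, i ∉ τ →
      z i * eval z (pderiv i f) = pr u θ i := by
  classical
  have hzero : ∀ α : ι →₀ ℕ, ¬ (∀ l ∈ τ, α l = 0) → ∏ i, z i ^ α i = 0 := by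
    intro α hα
    push Not at hα
    obtain ⟨l, hl, hl'⟩ := hα
    have h1 : z l = 0 := by
      have : l ∈ {i | z i = 0} := by rw [hz]; exact hl
      exact this
    refine Finset.prod_eq_zero (Finset.mem_univ l) ?_
    rw [h1, zero_pow hl']
  set A := f.support.filter fun α => ∀ l ∈ τ, α l = 0 with hA
  have hsumA : ∀ g : (ι →₀ ℕ) → ℂ, ∑ α ∈ f.support, coeff α f * (g α * ∏ k, z k ^ α k) =
      ∑ α ∈ A, coeff α f * (g α * ∏ k, z k ^ α k) := by
    intro g
    symm
    apply Finset.sum_subset (Finset.filter_subset _ _)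
    intro α hα hα'
    have h1 : ¬ ∀ l ∈ τ, α l = 0 := fun h => hα' (Finset.mem_filter.2 ⟨hα, h⟩)
    rw [hzero α h1, mul_zero, mul_zero]
  by_cases hne : A.Nonempty
  · obtain ⟨α₀, hα₀⟩ := hne
    obtain ⟨hα₀s, h0⟩ := Finset.mem_filter.1 hα₀
    have hd : ∀ α : ι →₀ ℕ, ∃ m : Fin N → ℤ, α ∈ A → m ∈ diffs u f τ ∧
        ∀ i, (α i : ℤ) = α₀ i + pr u m i := by
      intro α
      by_cases hα : α ∈ A
      · obtain ⟨hαs, hατ⟩ := Finset.mem_filter.1 hα
        obtain ⟨m, hm⟩ := hf α hαs
        obtain ⟨m₀, hm₀⟩ := hf α₀ hα₀s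
        replace hm : ∀ i, (α i : ℤ) = D i + pr u m i := hm
        replace hm₀ : ∀ i, (α₀ i : ℤ) = D i + pr u m₀ i := hm₀
        have h1 : ∀ i, (α i : ℤ) = α₀ i + pr u (m - m₀) i := fun i => by
          rw [pr_sub, hm, hm₀]; ring
        have h2 : ∀ l ∈ τ, pr u (m - m₀) l = 0 := fun l hl => by
          have := h1 l
          rw [hατ l hl, h0 l hl] at this
          simpa using this.symm
        exact ⟨m - m₀, fun _ => ⟨⟨h2, α₀, hα₀s, α, hαs, h0, hατ, h1⟩, h1⟩⟩
      · exact ⟨0, fun h => absurd h hα⟩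
    choose m hm using hd
    refine ⟨∑ α ∈ A, (coeff α f * ∏ k, z k ^ α k) • cst (m α), ?_, fun i _ => ?_⟩
    · exact Submodule.sum_mem _ fun α hα => Submodule.smul_mem _ _
        (Submodule.subset_span ⟨_, (hm α hα).1, rfl⟩)
    · rw [eval_X_mul_pderiv, hsumA fun α => (α i : ℂ), pr_sum]
      have h1 : ∑ α ∈ A, coeff α f * (1 * ∏ k, z k ^ α k) = 0 := by
        rw [← hsumA fun _ => 1, ← hfz, eval_eq']
        exact Finset.sum_congr rfl fun α _ => by ring
      have h2 : ∑ α ∈ A, coeff α f * ((α i : ℂ) * ∏ k, z k ^ α k) =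
          (α₀ i : ℂ) * ∑ α ∈ A, coeff α f * (1 * ∏ k, z k ^ α k) +
            ∑ α ∈ A, pr u ((coeff α f * ∏ k, z k ^ α k) • cst (m α)) i := by
        rw [Finset.mul_sum, ← Finset.sum_add_distrib]
        refine Finset.sum_congr rfl fun α hα => ?_
        have h3 : (α i : ℂ) = α₀ i + ((pr u (m α) i : ℤ) : ℂ) := by
          have := (hm α hα).2 i
          have h4 : ((α i : ℤ) : ℂ) = ((α₀ i + pr u (m α) i : ℤ) : ℂ) := by rw [this]
          push_cast at h4
          exact h4
        rw [pr_smul, pr_cst, h3]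
        ring
      rw [h2, h1, mul_zero, zero_add]
  · refine ⟨0, Submodule.zero_mem _, fun i _ => ?_⟩
    rw [eval_X_mul_pderiv, hsumA fun α => (α i : ℂ), Finset.not_nonempty_iff_eq_empty.1 hne]
    simp [pr]

/-- the differential in the normal directions -/
theorem movable_of_pderiv {f : MvPolynomial ι ℂ} {D : ι → ℤ} (hf : IsHomog u f D) {τ : Set ι}
    {z : ι → ℂ} (hz : {i | z i = 0} = τ) {l : ι} (hl : l ∈ τ)
    (h : eval z (pderiv l f) ≠ 0) : Movable u τ D l := by
  classical
  rw [f.as_sum, map_sum, map_sum] at h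
  obtain ⟨α, hα, h1⟩ := Finset.exists_ne_zero_of_sum_ne_zero h
  rw [pderiv_monomial, eval_monomial, Finsupp.prod_fintype _ _ (by simp)] at h1
  have h2 := left_ne_zero_of_mul h1
  have h3 := right_ne_zero_of_mul h1
  have hαl : α l ≠ 0 := fun h0 => h2 (by rw [h0, Nat.cast_zero, mul_zero])
  have hz0 : ∀ i ∈ τ, z i = 0 := fun i hi => by
    have : i ∈ {i | z i = 0} := by rw [hz]; exact hi
    exact this
  have h4 : ∀ i ∈ τ, (α - (Finsupp.single l 1 : ι →₀ ℕ)) i = 0 := by
    intro i hi
    by_contra h5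
    apply h3
    apply Finset.prod_eq_zero (Finset.mem_univ i)
    rw [hz0 i hi, zero_pow h5]
  have h5 : α l = 1 := by
    have h6 := h4 l hl
    simp only [Finsupp.tsub_apply, Finsupp.single_eq_same] at h6
    omega
  have h6 : ∀ i ∈ τ, i ≠ l → α i = 0 := by
    intro i hi hne
    have h7 := h4 i hi
    rw [Finsupp.tsub_apply, Finsupp.single_eq_of_ne hne] at h7
    omega
  obtain ⟨m, hm⟩ := hf α hα
  replace hm : ∀ i, (α i : ℤ) = D i + pr u m i := hm
  refine ⟨fun i => (α i : ℝ), by simp [h5], fun i hi hne => by simp [h6 i hi hne],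
    fun i => by positivity, fun k => (m k : ℝ), fun i => ?_⟩
  change (α i : ℝ) = D i + pr u (fun k => (m k : ℝ)) i
  have h7 : ((α i : ℤ) : ℝ) = ((D i + pr u m i : ℤ) : ℝ) := by rw [hm i]
  push_cast at h7
  rw [h7]
  congr 1
  simp [pr]

/-- smooth complete intersections -/
theorem choice_of_smooth (hS : IsFan u S) {c : ℕ} {f : Fin c → MvPolynomial ι ℂ}
    {D : Fin c → ι → ℤ} (hf : ∀ j, IsHomog u (f j) (D j)) {τ : Set ι} (hτ : τ ∈ S)
    {m : ι → Fin N → ℤ} (hm : IsDual u τ m)
    (hmax : ∀ y, IsPoint S f y → τ ⊆ {i | y i = 0} → {i | y i = 0} = τ) {z : ι → ℂ}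
    (hz : IsPoint S f z) (hzτ : {i | z i = 0} = τ)
    (hsm : LinearIndependent ℂ fun j => fun i => eval z (pderiv i (f j))) :
    Nonempty (Choice u f τ fun j => {l | Movable u τ (D j) l}) := by
  classical
  obtain ⟨a, ha, hasp⟩ := exists_span hS hf hτ hmax hz hzτ
  choose θ hθ1 hθ2 using fun j => exists_theta (hf j) hzτ (hz.2 j)
  let w₀ : Fin c → Fin N → ℂ := fun j =>
    θ j + ∑ l ∈ Finset.univ.filter (· ∈ τ), eval z (pderiv l (f j)) • cst (m l)
  have hap : ∀ j, a j ∈ perp u τ := fun j => by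
    rw [← hasp]; exact Submodule.subset_span ⟨j, rfl⟩
  have hθp : ∀ j, θ j ∈ perp u τ := fun j => span_diffs_le _ _ (hθ1 j)
  have hprw : ∀ j, ∀ l ∈ τ, pr u (w₀ j) l = eval z (pderiv l (f j)) := by
    intro j l hl
    simp only [w₀]
    rw [pr_add, hθp j l hl, zero_add, pr_sum, Finset.sum_eq_single l]
    · rw [pr_smul, pr_cst, (hm l hl).1, Int.cast_one, mul_one]
    · intro i hi hil
      rw [Finset.mem_filter] at hi
      rw [pr_smul, pr_cst, (hm i hi.2).2 l hl (Ne.symm hil), Int.cast_zero, mul_zero]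
    · intro h
      exact absurd (Finset.mem_filter.2 ⟨Finset.mem_univ _, hl⟩) h
  have hli : LinearIndependent ℂ w₀ := by
    rw [Fintype.linearIndependent_iff]
    intro t ht
    have h1 : ∀ l ∈ τ, ∑ j, t j * eval z (pderiv l (f j)) = 0 := by
      intro l hl
      have h2 := congrArg (fun x => pr u x l) ht
      simp only [pr_sum, pr_smul] at h2
      rw [← Finset.sum_congr rfl fun j _ => by rw [← hprw j l hl]]
      rw [h2]
      simp [pr]
    have h2 : ∑ j, t j • θ j = 0 := by
      have h3 : ∑ j, t j • w₀ j = ∑ j, t j • θ j +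
          ∑ l ∈ Finset.univ.filter (· ∈ τ), (∑ j, t j * eval z (pderiv l (f j))) • cst (m l) := by
        simp only [w₀, smul_add, Finset.sum_add_distrib, Finset.smul_sum, smul_smul,
          Finset.sum_smul]
        congr 1
        rw [Finset.sum_comm]
      rw [h3] at ht
      rw [← ht, eq_comm, add_eq_left]
      refine Finset.sum_eq_zero fun l hl => ?_
      rw [h1 l (Finset.mem_filter.1 hl).2, zero_smul]
    have h3 : ∑ j, t j • (fun i => eval z (pderiv i (f j))) = 0 := by
      funext i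
      simp only [Finset.sum_apply, Pi.smul_apply, smul_eq_mul, Pi.zero_apply]
      by_cases hi : i ∈ τ
      · exact h1 i hi
      · have hzi : z i ≠ 0 := fun h => hi (by rw [← hzτ]; exact h)
        have h4 := congrArg (fun x => pr u x i) h2
        simp only [pr_sum, pr_smul, ← hθ2 _ i hi] at h4
        have h5 : ∑ j, t j * (z i * eval z (pderiv i (f j))) =
            z i * ∑ j, t j * eval z (pderiv i (f j)) := by
          rw [Finset.mul_sum]
          exact Finset.sum_congr rfl fun j _ => by ring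
        rw [h5] at h4
        have h6 : pr u (0 : Fin N → ℂ) i = 0 := by simp [pr]
        rw [h6] at h4
        exact (mul_eq_zero.1 h4).resolve_left hzi
    exact Fintype.linearIndependent_iff.1 hsm t h3
  have hproja : (fun j => proj u τ m (a j)) = a := by
    funext j
    exact proj_of_mem m (hap j)
  obtain ⟨μ, h1, h2⟩ := perturb (proj u τ m) (w := w₀) (a := a) hli (by
    intro j
    rw [hproja, hasp]
    exact proj_mem hm _)
  rw [hproja, hasp] at h2
  refine exists_choice hS hτ hm (fun j => ?_) h1 h2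
  refine Submodule.add_mem _ (Submodule.span_mono Set.subset_union_left (ha j))
    (Submodule.smul_mem _ _ (Submodule.add_mem _
      (Submodule.span_mono Set.subset_union_left (hθ1 j)) (Submodule.sum_mem _ fun l hl => ?_)))
  have hlτ := (Finset.mem_filter.1 hl).2
  by_cases h0 : eval z (pderiv l (f j)) = 0
  · rw [h0, zero_smul]; exact Submodule.zero_mem _
  · exact Submodule.smul_mem _ _ (Submodule.subset_span (Or.inr
      ⟨l, ⟨hlτ, movable_of_pderiv (hf j) hzτ hlτ h0⟩, rfl⟩))

end H90.TF
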